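import Mathlib

set_option autoImplicit false

/-!
The shortest alternating cycle problem.
-/

namespace Pool.Agent.H586R2.Sac

variable {V : Type}

/-- `M` is a matching of `G`: a set of edges of `G`, no two of which share a vertex. -/
def IsMatching (G : SimpleGraph V) (M : Finset (Sym2 V)) : Prop :=
  (∀ e ∈ M, e ∈ G.edgeSet) ∧ ∀ e ∈ M, ∀ f ∈ M, ∀ v, v ∈ e → v ∈ f → e = f

/-- `M` is a matching of `G` with the largest possible number of edges. -/
def IsMaxMatching (G : SimpleGraph V) (M : Finset (Sym2 V)) : Prop :=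
  IsMatching G M ∧ ∀ M' : Finset (Sym2 V), IsMatching G M' → M'.card ≤ M.card

open Classical in
/-- There are a maximum matching `M` and a cycle `C` of `G` with `|C| ≤ L` and
`|C ∩ M| = |C| / 2`. -/
def HasShortAltCycle (G : SimpleGraph V) (L : ℕ) : Prop :=
  ∃ M : Finset (Sym2 V), IsMaxMatching G M ∧
    ∃ (v : V) (C : G.Walk v v), C.IsCycle ∧ C.length ≤ L ∧
      2 * (C.edges.filter (fun e => e ∈ M)).length = C.length

end Pool.Agent.H586R2.Sac
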