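import Mathlib
import Pool.Agent.H586R2.Sac.Defs

set_option autoImplicit false
set_option linter.unusedSectionVars false

namespace Pool.Agent.H586R2.Sac

open Finset

variable {V : Type} [DecidableEq V]

/-- the vertices covered by a set of edges -/
def cover (M : Finset (Sym2 V)) : Finset V := M.biUnion (fun e => e.toFinset)

theorem mem_cover {M : Finset (Sym2 V)} {v : V} : v ∈ cover M ↔ ∃ e ∈ M, v ∈ e := by
  unfold cover
  rw [mem_biUnion]
  simp [Sym2.mem_toFinset]

theorem card_cover {G : SimpleGraph V} {M : Finset (Sym2 V)} (hM : IsMatching G M) :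
    (cover M).card = 2 * M.card := by
  unfold cover
  rw [card_biUnion]
  · rw [sum_const_nat (m := 2), mul_comm]
    intro e he
    exact Sym2.card_toFinset_of_not_isDiag e (G.not_isDiag_of_mem_edgeSet (hM.1 e he))
  · intro e he f hf hef
    rw [Function.onFun, disjoint_left]
    intro v hv hv'
    rw [Sym2.mem_toFinset] at hv hv'
    exact hef (hM.2 e he f hf v hv hv')

theorem IsMatching.subset {G : SimpleGraph V} {M N : Finset (Sym2 V)} (hM : IsMatching G M)
    (h : N ⊆ M) : IsMatching G N :=
  ⟨fun e he => hM.1 e (h he), fun e he f hf v hv hv' => hM.2 e (h he) f (h hf) v hv hv'⟩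

theorem card_support {G : SimpleGraph V} {v : V} {C : G.Walk v v} (hC : C.IsCycle) :
    C.support.toFinset.card = C.length := by
  have h1 : C.support.toFinset = C.support.tail.toFinset := by
    ext x
    rw [List.mem_toFinset, List.mem_toFinset, SimpleGraph.Walk.mem_support_iff]
    constructor
    · rintro (rfl | h)
      · exact (SimpleGraph.Walk.end_mem_tail_support hC.not_nil)
      · exact h
    · exact fun h => Or.inr h
  rw [h1, List.toFinset_card_of_nodup hC.support_nodup]
  have := C.length_support
  rw [List.length_tail]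
  omega

/-- The cycle `C` is alternating iff each of its vertices is covered by an edge of `C ∩ M`. -/
theorem alt_iff {G : SimpleGraph V} {M : Finset (Sym2 V)} (hM : IsMatching G M) {v : V}
    {C : G.Walk v v} (hC : C.IsCycle) :
    2 * (C.edges.filter (fun e => e ∈ M)).length = C.length ↔
      ∀ x ∈ C.support, ∃ e ∈ C.edges, e ∈ M ∧ x ∈ e := by
  set E : Finset (Sym2 V) := (C.edges.filter (fun e => e ∈ M)).toFinset with hE
  have hEcard : E.card = (C.edges.filter (fun e => e ∈ M)).length := by
    rw [hE, List.toFinset_card_of_nodup]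
    exact hC.isCircuit.isTrail.edges_nodup.filter _
  have hmemE : ∀ e, e ∈ E ↔ e ∈ C.edges ∧ e ∈ M := by
    intro e; rw [hE, List.mem_toFinset, List.mem_filter]; simp
  have hEM : IsMatching G E := hM.subset (fun e he => ((hmemE e).1 he).2)
  have hcov : (cover E) ⊆ C.support.toFinset := by
    intro x hx
    rw [mem_cover] at hx
    obtain ⟨e, he, hxe⟩ := hx
    rw [List.mem_toFinset]
    have hmem := ((hmemE e).1 he).1
    obtain ⟨y, rfl⟩ := Sym2.mem_iff_exists.1 hxe
    exact C.fst_mem_support_of_mem_edges hmem
  have hc := card_cover hEM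
  have hs := card_support hC
  rw [← hEcard, ← hc, ← hs]
  constructor
  · intro h x hx
    have heq : cover E = C.support.toFinset := eq_of_subset_of_card_le hcov h.ge
    have : x ∈ cover E := by rw [heq, List.mem_toFinset]; exact hx
    rw [mem_cover] at this
    obtain ⟨e, he, hxe⟩ := this
    exact ⟨e, ((hmemE e).1 he).1, ((hmemE e).1 he).2, hxe⟩
  · intro h
    congr 1
    apply Subset.antisymm hcov
    intro x hx
    rw [List.mem_toFinset] at hx
    obtain ⟨e, he, heM, hxe⟩ := h x hx
    rw [mem_cover]
    exact ⟨e, (hmemE e).2 ⟨he, heM⟩, hxe⟩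

/-- a perfect matching given by a partner function -/
theorem partner_matching [Fintype V] {G : SimpleGraph V} (μ : V → V) (h1 : ∀ v, G.Adj v (μ v))
    (h2 : ∀ v, μ (μ v) = v) :
    IsMaxMatching G (univ.image (fun v => s(v, μ v))) := by
  have key : ∀ e ∈ univ.image (fun v => s(v, μ v)), ∀ v ∈ e, e = s(v, μ v) := by
    intro e he v hv
    rw [mem_image] at he
    obtain ⟨x, _, rfl⟩ := he
    rcases Sym2.mem_iff.1 hv with rfl | rfl
    · rfl
    · rw [h2, Sym2.eq_swap]
  have hM : IsMatching G (univ.image (fun v => s(v, μ v))) := by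
    constructor
    · intro e he
      rw [mem_image] at he
      obtain ⟨x, _, rfl⟩ := he
      exact h1 x
    · intro e he f hf v hv hv'
      rw [key e he v hv, key f hf v hv']
  refine ⟨hM, fun M' hM' => ?_⟩
  have hc := card_cover hM
  have hc' := card_cover hM'
  have : cover (univ.image (fun v => s(v, μ v))) = univ := by
    ext v
    rw [mem_cover]
    simp only [mem_univ, iff_true]
    exact ⟨s(v, μ v), mem_image_of_mem _ (mem_univ _), by simp⟩
  rw [this] at hc
  have := card_le_card (subset_univ (cover M'))
  omega

/-- if some perfect matching exists, every maximum matching covers all vertices -/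
theorem maxMatching_covers [Fintype V] {G : SimpleGraph V} (μ : V → V) (h1 : ∀ v, G.Adj v (μ v))
    (h2 : ∀ v, μ (μ v) = v) {M : Finset (Sym2 V)} (hM : IsMaxMatching G M) (v : V) :
    ∃ e ∈ M, v ∈ e := by
  have h0 := partner_matching μ h1 h2
  have h3 := hM.2 _ h0.1
  have hc := card_cover h0.1
  have hc' := card_cover hM.1
  have : cover (univ.image (fun v => s(v, μ v))) = univ := by
    ext v
    rw [mem_cover]
    simp only [mem_univ, iff_true]
    exact ⟨s(v, μ v), mem_image_of_mem _ (mem_univ _), by simp⟩
  rw [this] at hc
  have h4 : cover M = univ := eq_of_subset_of_card_le (subset_univ _) (by omega)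
  have : v ∈ cover M := by rw [h4]; exact mem_univ _
  exact mem_cover.1 this

omit [DecidableEq V] in
/-- invariance under isomorphism -/
theorem HasShortAltCycle.map {V' : Type} {G : SimpleGraph V} {G' : SimpleGraph V'} (f : G ≃g G')
    {L : ℕ} (h : HasShortAltCycle G L) : HasShortAltCycle G' L := by
  classical
  obtain ⟨M, hM, v, C, hC, hL, hA⟩ := h
  have transfer : ∀ {W W' : Type} {H : SimpleGraph W} {H' : SimpleGraph W'} (g : H ≃g H')
      (N : Finset (Sym2 W)), IsMatching H N → IsMatching H' (N.image (Sym2.map g)) := by
    intro W W' H H' g N hN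
    constructor
    · intro e he
      rw [mem_image] at he
      obtain ⟨e', he', rfl⟩ := he
      have := hN.1 e' he'
      induction e' with
      | _ a b =>
        rw [Sym2.map_mk]
        exact g.map_adj_iff.2 this
    · intro e he f' hf v' hv hv'
      rw [mem_image] at he hf
      obtain ⟨e', he', rfl⟩ := he
      obtain ⟨f', hf', rfl⟩ := hf
      rw [Sym2.mem_map] at hv hv'
      obtain ⟨a, ha, rfl⟩ := hv
      obtain ⟨b, hb, hab⟩ := hv'
      have : b = a := g.injective hab
      subst this
      rw [hN.2 e' he' f' hf' b ha hb]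
  have hinj : ∀ {W W' : Type} {H : SimpleGraph W} {H' : SimpleGraph W'} (g : H ≃g H')
      (N : Finset (Sym2 W)), (N.image (Sym2.map g)).card = N.card := by
    intro W W' H H' g N
    exact card_image_of_injective _ (Sym2.map.injective g.injective)
  refine ⟨M.image (Sym2.map f), ⟨transfer f M hM.1, ?_⟩, f v, C.map f.toHom, ?_, ?_, ?_⟩
  · intro M' hM'
    have := hM.2 _ (transfer f.symm M' hM')
    rw [hinj f.symm M'] at this
    rw [hinj f M]
    exact this
  · exact hC.map f.injective
  · rw [SimpleGraph.Walk.length_map]; exact hL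
  · rw [SimpleGraph.Walk.length_map, SimpleGraph.Walk.edges_map, List.filter_map, List.length_map,
      ← hA]
    congr 2
    apply List.filter_congr
    intro e _
    simp only [Function.comp]
    congr 1
    rw [eq_iff_iff]
    constructor
    · intro h
      rw [mem_image] at h
      obtain ⟨e', he', h⟩ := h
      have : e' = e := Sym2.map.injective f.injective h
      exact this ▸ he'
    · intro h
      exact mem_image_of_mem _ h

end Pool.Agent.H586R2.Sac
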