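import Mathlib
import Pool.Agent.H586R2.Sac.Basic

set_option autoImplicit false
set_option linter.unusedSectionVars false

namespace Pool.Agent.H586R2.Sac

open Finset

/-- A digraph with disjoint forbidden pairs, such that two different out-neighbours of one vertex
always form a pair. -/
structure Dig (X P : Type) where
  arc : X → X → Prop
  fst : P → X
  snd : P → X
  irr : ∀ x, ¬ arc x x
  ne : ∀ p, fst p ≠ snd p
  uniq : ∀ p q x, (x = fst p ∨ x = snd p) → (x = fst q ∨ x = snd q) → p = q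
  out : ∀ v w w', arc v w → arc v w' → w ≠ w' →
    ∃ p, (fst p = w ∧ snd p = w') ∨ (fst p = w' ∧ snd p = w)

/-- vertices of the gadget graph -/
abbrev Vt (X P : Type) (h : ℕ) : Type := (X × Bool) ⊕ (P × Bool × Fin (2 * h + 1))

namespace Dig

variable {X P : Type} [Fintype X] [DecidableEq X] [Fintype P] [DecidableEq P] (D : Dig X P) (h : ℕ)

/-- directed version of the adjacency -/
def rel : Vt X P h → Vt X P h → Prop
  | .inl (x, s), .inl (y, s') => s = false ∧ s' = true ∧ (x = y ∨ D.arc y x)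
  | .inl (x, s), .inr (p, s', i) =>
    s = s' ∧ ((x = D.fst p ∧ (i : ℕ) = 0) ∨ (x = D.snd p ∧ (i : ℕ) = 2 * h))
  | .inr (p, s, i), .inr (p', s', i') => p = p' ∧ s = s' ∧ (i' : ℕ) = (i : ℕ) + 1
  | .inr _, .inl _ => False

/-- the gadget graph -/
def graph : SimpleGraph (Vt X P h) := SimpleGraph.fromRel (D.rel h)

theorem adj_ll (x y : X) (s s' : Bool) : (D.graph h).Adj (.inl (x, s)) (.inl (y, s')) ↔
    (s = false ∧ s' = true ∧ (x = y ∨ D.arc y x)) ∨ (s' = false ∧ s = true ∧ (y = x ∨ D.arc x y)) := by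
  unfold graph
  rw [SimpleGraph.fromRel_adj]
  simp only [rel]
  constructor
  · exact fun h => h.2
  · intro h
    refine ⟨?_, h⟩
    intro heq
    have := congrArg (fun z => match z with | Sum.inl (_, b) => b | _ => false) heq
    simp only at this
    rcases h with ⟨h1, h2, _⟩ | ⟨h1, h2, _⟩ <;> rw [h1, h2] at this <;> exact absurd this (by decide)

theorem adj_lr (x : X) (s : Bool) (p : P) (s' : Bool) (i : Fin (2 * h + 1)) :
    (D.graph h).Adj (.inl (x, s)) (.inr (p, s', i)) ↔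
      s = s' ∧ ((x = D.fst p ∧ (i : ℕ) = 0) ∨ (x = D.snd p ∧ (i : ℕ) = 2 * h)) := by
  unfold graph
  rw [SimpleGraph.fromRel_adj]
  simp [rel]

theorem adj_rl (x : X) (s : Bool) (p : P) (s' : Bool) (i : Fin (2 * h + 1)) :
    (D.graph h).Adj (.inr (p, s', i)) (.inl (x, s)) ↔
      s = s' ∧ ((x = D.fst p ∧ (i : ℕ) = 0) ∨ (x = D.snd p ∧ (i : ℕ) = 2 * h)) := by
  rw [SimpleGraph.adj_comm, adj_lr]

theorem adj_rr (p p' : P) (s s' : Bool) (i i' : Fin (2 * h + 1)) :
    (D.graph h).Adj (.inr (p, s, i)) (.inr (p', s', i')) ↔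
      p = p' ∧ s = s' ∧ ((i' : ℕ) = i + 1 ∨ (i : ℕ) = i' + 1) := by
  unfold graph
  rw [SimpleGraph.fromRel_adj]
  simp only [rel]
  constructor
  · rintro ⟨_, ⟨h1, h2, h3⟩ | ⟨h1, h2, h3⟩⟩
    · exact ⟨h1, h2, Or.inl h3⟩
    · exact ⟨h1.symm, h2.symm, Or.inr h3⟩
  · rintro ⟨h1, h2, h3⟩
    refine ⟨?_, ?_⟩
    · intro heq
      have : i = i' := by
        have := Sum.inr.inj heq
        exact (Prod.ext_iff.1 (Prod.ext_iff.1 this).2).2
      subst this
      omega
    · rcases h3 with h3 | h3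
      · exact Or.inl ⟨h1, h2, h3⟩
      · exact Or.inr ⟨h1.symm, h2.symm, h3⟩

section PerfectMatching

variable (S : Finset X)

/-- the member of the pair `p` that is matched into the path of `p` -/
def cz (p : P) : X := if D.fst p ∈ S then D.snd p else D.fst p

/-- the matching, directed version -/
def mr : Vt X P h → Vt X P h → Prop
  | .inl (x, s), .inl (y, s') => s = false ∧ s' = true ∧ x = y ∧ ∀ p, D.cz S p ≠ x
  | .inl (x, s), .inr (p, s', i) =>
    s = s' ∧ x = D.cz S p ∧ ((x = D.fst p ∧ (i : ℕ) = 0) ∨ (x = D.snd p ∧ (i : ℕ) = 2 * h))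
  | .inr (p, s, i), .inr (p', s', i') =>
    p = p' ∧ s = s' ∧ (i' : ℕ) = (i : ℕ) + 1 ∧ ((i : ℕ) % 2 = if D.fst p ∈ S then 0 else 1)
  | .inr _, .inl _ => False

/-- the matching relation -/
def mrel (a b : Vt X P h) : Prop := D.mr h S a b ∨ D.mr h S b a

theorem mrel_symm {a b : Vt X P h} (hab : D.mrel h S a b) : D.mrel h S b a := hab.symm

theorem mrel_adj {a b : Vt X P h} (hab : D.mrel h S a b) : (D.graph h).Adj a b := by
  have key : ∀ a b, D.mr h S a b → (D.graph h).Adj a b := by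
    rintro (⟨x, s⟩ | ⟨p, s, i⟩) (⟨y, s'⟩ | ⟨p', s', i'⟩) hm
    · obtain ⟨h1, h2, h3, _⟩ := hm
      rw [adj_ll]
      exact Or.inl ⟨h1, h2, Or.inl h3⟩
    · obtain ⟨h1, h2, h3⟩ := hm
      rw [adj_lr]
      exact ⟨h1, h3⟩
    · exact hm.elim
    · obtain ⟨h1, h2, h3, _⟩ := hm
      rw [adj_rr]
      exact ⟨h1, h2, Or.inl h3⟩
  rcases hab with hm | hm
  · exact key _ _ hm
  · exact (key _ _ hm).symm

theorem cz_inj {p q : P} (hpq : D.cz S p = D.cz S q) : p = q := by
  have h1 : ∀ p, D.cz S p = D.fst p ∨ D.cz S p = D.snd p := by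
    intro p; unfold cz; split_ifs
    · exact Or.inr rfl
    · exact Or.inl rfl
  apply D.uniq p q (D.cz S p) (h1 p)
  rw [hpq]
  exact h1 q

theorem exists_mrel (a : Vt X P h) : ∃ b, D.mrel h S a b := by
  rcases a with ⟨x, s⟩ | ⟨p, s, i⟩
  · by_cases hx : ∃ p, D.cz S p = x
    · obtain ⟨p, rfl⟩ := hx
      by_cases hf : D.fst p ∈ S
      · refine ⟨.inr (p, s, ⟨2 * h, by omega⟩), Or.inl ⟨rfl, rfl, Or.inr ⟨?_, rfl⟩⟩⟩
        unfold cz; rw [if_pos hf]
      · refine ⟨.inr (p, s, ⟨0, by omega⟩), Or.inl ⟨rfl, rfl, Or.inl ⟨?_, rfl⟩⟩⟩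
        unfold cz; rw [if_neg hf]
    · push Not at hx
      cases s
      · exact ⟨.inl (x, true), Or.inl ⟨rfl, rfl, rfl, hx⟩⟩
      · exact ⟨.inl (x, false), Or.inr ⟨rfl, rfl, rfl, hx⟩⟩
  · have hi := i.2
    by_cases hf : D.fst p ∈ S
    · rcases Nat.mod_two_eq_zero_or_one (i : ℕ) with hm | hm
      · by_cases hl : (i : ℕ) = 2 * h
        · refine ⟨.inl (D.snd p, s), Or.inr ⟨rfl, ?_, Or.inr ⟨rfl, hl⟩⟩⟩
          unfold cz; rw [if_pos hf]
        · exact ⟨.inr (p, s, ⟨i + 1, by omega⟩), Or.inl ⟨rfl, rfl, rfl, by rw [if_pos hf]; exact hm⟩⟩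
      · exact ⟨.inr (p, s, ⟨i - 1, by omega⟩), Or.inr ⟨rfl, rfl, by simp only; omega,
          by rw [if_pos hf]; simp only; omega⟩⟩
    · rcases Nat.mod_two_eq_zero_or_one (i : ℕ) with hm | hm
      · by_cases hl : (i : ℕ) = 0
        · refine ⟨.inl (D.fst p, s), Or.inr ⟨rfl, ?_, Or.inl ⟨rfl, hl⟩⟩⟩
          unfold cz; rw [if_neg hf]
        · exact ⟨.inr (p, s, ⟨i - 1, by omega⟩), Or.inr ⟨rfl, rfl, by simp only; omega,
            by rw [if_neg hf]; simp only; omega⟩⟩
      · exact ⟨.inr (p, s, ⟨i + 1, by omega⟩), Or.inl ⟨rfl, rfl, rfl, by rw [if_neg hf]; exact hm⟩⟩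

theorem mrel_unique {a b c : Vt X P h} (hb : D.mrel h S a b) (hc : D.mrel h S a c) : b = c := by
  rcases a with ⟨x, s⟩ | ⟨p, s, i⟩
  · rcases b with ⟨y, s'⟩ | ⟨q, s', j⟩ <;> rcases c with ⟨z, s''⟩ | ⟨r, s'', k⟩
    · have e1 : y = x ∧ s' = !s := by
        rcases hb with ⟨h1, h2, h3, _⟩ | ⟨h1, h2, h3, _⟩
        · exact ⟨h3.symm, by rw [h1, h2]; rfl⟩
        · exact ⟨h3, by rw [h1, h2]; rfl⟩
      have e2 : z = x ∧ s'' = !s := by
        rcases hc with ⟨h1, h2, h3, _⟩ | ⟨h1, h2, h3, _⟩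
        · exact ⟨h3.symm, by rw [h1, h2]; rfl⟩
        · exact ⟨h3, by rw [h1, h2]; rfl⟩
      rw [e1.1, e1.2, e2.1, e2.2]
    · exfalso
      have e2 : x = D.cz S r := by
        rcases hc with ⟨_, h2, _⟩ | h2
        · exact h2
        · exact h2.elim
      rcases hb with ⟨h1, h2, h3, h4⟩ | ⟨h1, h2, h3, h4⟩
      · exact h4 r e2.symm
      · exact h4 r (by rw [h3]; exact e2.symm)
    · exfalso
      have e2 : x = D.cz S q := by
        rcases hb with ⟨_, h2, _⟩ | h2
        · exact h2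
        · exact h2.elim
      rcases hc with ⟨h1, h2, h3, h4⟩ | ⟨h1, h2, h3, h4⟩
      · exact h4 q e2.symm
      · exact h4 q (by rw [h3]; exact e2.symm)
    · rcases hb with ⟨a1, a2, a3⟩ | hb
      swap; · exact hb.elim
      rcases hc with ⟨b1, b2, b3⟩ | hc
      swap; · exact hc.elim
      have hqr : q = r := D.cz_inj S (a2.symm.trans b2)
      subst hqr
      have hne := D.ne q
      have hjk : (j : ℕ) = k := by
        rcases a3 with ⟨a3, a4⟩ | ⟨a3, a4⟩ <;> rcases b3 with ⟨b3, b4⟩ | ⟨b3, b4⟩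
        · omega
        · exact absurd (a3.symm.trans b3) hne
        · exact absurd (b3.symm.trans a3) hne
        · omega
      rw [← a1, ← b1, Fin.ext hjk]
  · have hi := i.2
    rcases b with ⟨y, s'⟩ | ⟨q, s', j⟩ <;> rcases c with ⟨z, s''⟩ | ⟨r, s'', k⟩
    · rcases hb with hb | ⟨a1, a2, _⟩
      · exact hb.elim
      rcases hc with hc | ⟨b1, b2, _⟩
      · exact hc.elim
      rw [a1, a2, b1, b2]
    · exfalso
      rcases hb with hb | ⟨a1, a2, a3⟩
      · exact hb.elim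
      have hk := k.2
      have hcz : y = D.cz S p := a2
      unfold cz at hcz
      rcases hc with ⟨b1, b2, b3, b4⟩ | ⟨b1, b2, b3, b4⟩
      · by_cases hf : D.fst p ∈ S
        · rw [if_pos hf] at b4 hcz
          rcases a3 with ⟨a3, a4⟩ | ⟨a3, a4⟩
          · exact D.ne p (a3.symm.trans hcz)
          · omega
        · rw [if_neg hf] at b4 hcz
          rcases a3 with ⟨a3, a4⟩ | ⟨a3, a4⟩
          · omega
          · exact D.ne p (hcz.symm.trans a3)
      · subst b1
        by_cases hf : D.fst r ∈ S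
        · rw [if_pos hf] at b4 hcz
          rcases a3 with ⟨a3, a4⟩ | ⟨a3, a4⟩
          · exact D.ne r (a3.symm.trans hcz)
          · omega
        · rw [if_neg hf] at b4 hcz
          rcases a3 with ⟨a3, a4⟩ | ⟨a3, a4⟩
          · omega
          · exact D.ne r (hcz.symm.trans a3)
    · exfalso
      rcases hc with hc | ⟨a1, a2, a3⟩
      · exact hc.elim
      have hj := j.2
      have hcz : z = D.cz S p := a2
      unfold cz at hcz
      rcases hb with ⟨b1, b2, b3, b4⟩ | ⟨b1, b2, b3, b4⟩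
      · by_cases hf : D.fst p ∈ S
        · rw [if_pos hf] at b4 hcz
          rcases a3 with ⟨a3, a4⟩ | ⟨a3, a4⟩
          · exact D.ne p (a3.symm.trans hcz)
          · omega
        · rw [if_neg hf] at b4 hcz
          rcases a3 with ⟨a3, a4⟩ | ⟨a3, a4⟩
          · omega
          · exact D.ne p (hcz.symm.trans a3)
      · subst b1
        by_cases hf : D.fst q ∈ S
        · rw [if_pos hf] at b4 hcz
          rcases a3 with ⟨a3, a4⟩ | ⟨a3, a4⟩
          · exact D.ne q (a3.symm.trans hcz)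
          · omega
        · rw [if_neg hf] at b4 hcz
          rcases a3 with ⟨a3, a4⟩ | ⟨a3, a4⟩
          · omega
          · exact D.ne q (hcz.symm.trans a3)
    · have hpq : q = p := by
        rcases hb with ⟨h1, _⟩ | ⟨h1, _⟩
        · exact h1.symm
        · exact h1
      have hpr : r = p := by
        rcases hc with ⟨h1, _⟩ | ⟨h1, _⟩
        · exact h1.symm
        · exact h1
      have hsq : s' = s := by
        rcases hb with ⟨_, h1, _⟩ | ⟨_, h1, _⟩
        · exact h1.symm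
        · exact h1
      have hsr : s'' = s := by
        rcases hc with ⟨_, h1, _⟩ | ⟨_, h1, _⟩
        · exact h1.symm
        · exact h1
      subst hpq hpr hsq hsr
      have hjk : (j : ℕ) = k := by
        rcases hb with ⟨_, _, a3, a4⟩ | ⟨_, _, a3, a4⟩ <;>
          rcases hc with ⟨_, _, b3, b4⟩ | ⟨_, _, b3, b4⟩ <;> split_ifs at a4 b4 <;> omega
      rw [Fin.ext hjk]

/-- the partner function -/
theorem exists_partner_fun : ∃ μ : Vt X P h → Vt X P h, (∀ v, D.mrel h S v (μ v)) ∧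
    (∀ v, μ (μ v) = v) := by
  choose μ hμ using D.exists_mrel h S
  exact ⟨μ, hμ, fun v => D.mrel_unique h S (hμ (μ v)) (D.mrel_symm h S (hμ v))⟩

end PerfectMatching

end Dig

end Pool.Agent.H586R2.Sac
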