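import Mathlib
import Pool.Agent.H586R2.Sac.Gadget

set_option autoImplicit false
set_option linter.unusedSectionVars false

namespace Pool.Agent.H586R2.Sac

open Finset

namespace Dig

variable {X P : Type} [Fintype X] [DecidableEq X] [Fintype P] [DecidableEq P] (D : Dig X P) (h : ℕ)

/-- A nonempty set of vertices, each with an out-neighbour in the set, containing no pair. -/
def Closed (S : Finset X) : Prop :=
  S.Nonempty ∧ (∀ x ∈ S, ∃ w ∈ S, D.arc x w) ∧ ∀ p, ¬ (D.fst p ∈ S ∧ D.snd p ∈ S)

section Forward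

/-- lower neighbour of a path vertex -/
def dn (p : P) (s : Bool) (i : Fin (2 * h + 1)) : Vt X P h :=
  if (i : ℕ) = 0 then .inl (D.fst p, s) else .inr (p, s, ⟨i - 1, by omega⟩)

/-- upper neighbour of a path vertex -/
def up (p : P) (s : Bool) (i : Fin (2 * h + 1)) : Vt X P h :=
  if hi : (i : ℕ) = 2 * h then .inl (D.snd p, s) else .inr (p, s, ⟨i + 1, by omega⟩)

theorem nbr_path {p : P} {s : Bool} {i : Fin (2 * h + 1)} {w : Vt X P h}
    (hw : (D.graph h).Adj (.inr (p, s, i)) w) : w = D.dn h p s i ∨ w = D.up h p s i := by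
  unfold dn up
  rcases w with ⟨x, s'⟩ | ⟨q, s', j⟩
  · rw [adj_rl] at hw
    obtain ⟨rfl, ⟨rfl, h1⟩ | ⟨rfl, h1⟩⟩ := hw
    · left; rw [if_pos h1]
    · right; rw [dif_pos h1]
  · rw [adj_rr] at hw
    obtain ⟨rfl, rfl, h1 | h1⟩ := hw
    · right
      have := j.2
      rw [dif_neg (by omega)]
      congr 3
      exact Fin.ext h1
    · left
      rw [if_neg (by omega)]
      congr 3
      apply Fin.ext
      simp only
      omega

variable {L : ℕ} (hL : L < 2 * h + 1)
variable {M : Finset (Sym2 (Vt X P h))} (hM : IsMatching (D.graph h) M)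
  (hcov : ∀ v, ∃ e ∈ M, v ∈ e) {v₀ : Vt X P h} {C : (D.graph h).Walk v₀ v₀} (hC : C.IsCycle)
  (hCL : C.length ≤ L) (hA : ∀ x ∈ C.support, ∃ e ∈ C.edges, e ∈ M ∧ x ∈ e)

include hC in
/-- on the cycle, a path vertex has both its neighbours on the cycle -/
theorem path_both {p : P} {s : Bool} {i : Fin (2 * h + 1)}
    (hi : (.inr (p, s, i) : Vt X P h) ∈ C.support) :
    D.dn h p s i ∈ C.support ∧ D.up h p s i ∈ C.support := by
  have h2 := hC.ncard_neighborSet_toSubgraph_eq_two hi
  have hsub : C.toSubgraph.neighborSet (.inr (p, s, i)) ⊆ {D.dn h p s i, D.up h p s i} := by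
    intro w hw
    have hadj : C.toSubgraph.Adj (.inr (p, s, i)) w := hw
    exact D.nbr_path h hadj.adj_sub
  have heq : C.toSubgraph.neighborSet (.inr (p, s, i)) = {D.dn h p s i, D.up h p s i} := by
    apply Set.eq_of_subset_of_ncard_le hsub
    rw [h2]
    exact (Set.ncard_insert_le _ _).trans (by rw [Set.ncard_singleton])
  have hmem : ∀ w ∈ C.toSubgraph.neighborSet (.inr (p, s, i)), w ∈ C.support := by
    intro w hw
    have hadj : C.toSubgraph.Adj (.inr (p, s, i)) w := hw
    rw [← SimpleGraph.Walk.mem_verts_toSubgraph]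
    exact C.toSubgraph.edge_vert hadj.symm
  exact ⟨hmem _ (by rw [heq]; simp), hmem _ (by rw [heq]; simp)⟩

include hL hC hCL in
/-- no path vertex lies on the cycle -/
theorem no_path {p : P} {s : Bool} {i : Fin (2 * h + 1)} :
    (.inr (p, s, i) : Vt X P h) ∉ C.support := by
  intro hi
  have hup : ∀ k : ℕ, ∀ hk : (i : ℕ) + k < 2 * h + 1,
      (.inr (p, s, ⟨i + k, hk⟩) : Vt X P h) ∈ C.support := by
    intro k
    induction k with
    | zero => intro _; exact hi
    | succ k ih =>
      intro hk
      have h1 := (D.path_both h hC (ih (by omega))).2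
      unfold up at h1
      rw [dif_neg (by simp only; omega)] at h1
      convert h1 using 4
      apply Fin.ext; simp only; omega
  have hdn : ∀ k : ℕ, ∀ hk : k ≤ (i : ℕ),
      (.inr (p, s, ⟨i - k, by omega⟩) : Vt X P h) ∈ C.support := by
    intro k
    induction k with
    | zero => intro _; exact hi
    | succ k ih =>
      intro hk
      have h1 := (D.path_both h hC (ih (by omega))).1
      unfold dn at h1
      rw [if_neg (by simp only; omega)] at h1
      convert h1 using 4
      apply Fin.ext; simp only; omega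
  have hall : ∀ j : Fin (2 * h + 1), (.inr (p, s, j) : Vt X P h) ∈ C.support := by
    intro j
    rcases le_total (i : ℕ) j with hij | hij
    · have := hup (j - i) (by omega)
      convert this using 4
      apply Fin.ext; simp only; omega
    · have := hdn (i - j) (by omega)
      convert this using 4
      apply Fin.ext; simp only; omega
  have hcard : (univ.image (fun j : Fin (2 * h + 1) => (.inr (p, s, j) : Vt X P h))).card ≤
      C.support.toFinset.card := by
    apply card_le_card
    intro w hw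
    rw [mem_image] at hw
    obtain ⟨j, _, rfl⟩ := hw
    rw [List.mem_toFinset]
    exact hall j
  rw [card_image_of_injective _ (by
    intro a b hab
    have := Sum.inr.inj hab
    exact (Prod.ext_iff.1 (Prod.ext_iff.1 this).2).2), card_univ, Fintype.card_fin,
    card_support hC] at hcard
  omega

include hM in
theorem m_unique {a b c : Vt X P h} (hb : s(a, b) ∈ M) (hc : s(a, c) ∈ M) : b = c :=
  Sym2.congr_right.1 (hM.2 _ hb _ hc a (by simp) (by simp))

include hA in
/-- on the cycle, the matching partner is on the cycle -/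
theorem partner_on {a : Vt X P h} (ha : a ∈ C.support) :
    ∃ b, s(a, b) ∈ C.edges ∧ s(a, b) ∈ M ∧ b ∈ C.support := by
  obtain ⟨e, he, heM, hae⟩ := hA a ha
  obtain ⟨b, rfl⟩ := Sym2.mem_iff_exists.1 hae
  exact ⟨b, he, heM, C.snd_mem_support_of_mem_edges he⟩

include hL hM hcov hC hCL hA in
/-- the cycle does not contain both members of a pair -/
theorem no_pair (p : P) (s : Bool) : ¬ ((.inl (D.fst p, s) : Vt X P h) ∈ C.support ∧
    (.inl (D.snd p, s) : Vt X P h) ∈ C.support) := by
  rintro ⟨h1, h2⟩
  -- neither end is matched into the path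
  have e1 : ∀ i, s((.inl (D.fst p, s) : Vt X P h), .inr (p, s, i)) ∉ M := by
    intro i hi
    obtain ⟨b, _, hb, hbC⟩ := D.partner_on h hA h1
    have := D.m_unique h hM hi hb
    rw [← this] at hbC
    exact D.no_path h hL hC hCL hbC
  have e2 : ∀ i, s((.inl (D.snd p, s) : Vt X P h), .inr (p, s, i)) ∉ M := by
    intro i hi
    obtain ⟨b, _, hb, hbC⟩ := D.partner_on h hA h2
    have := D.m_unique h hM hi hb
    rw [← this] at hbC
    exact D.no_path h hL hC hCL hbC
  -- every path vertex is matched up or down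
  have alt : ∀ i, s((.inr (p, s, i) : Vt X P h), D.dn h p s i) ∈ M ∨
      s((.inr (p, s, i) : Vt X P h), D.up h p s i) ∈ M := by
    intro i
    obtain ⟨e, he, hie⟩ := hcov (.inr (p, s, i))
    obtain ⟨b, rfl⟩ := Sym2.mem_iff_exists.1 hie
    have hadj : (D.graph h).Adj (.inr (p, s, i)) b := hM.1 _ he
    rcases D.nbr_path h hadj with rfl | rfl
    · exact Or.inl he
    · exact Or.inr he
  have key : ∀ k : ℕ, ∀ hk : 2 * k < 2 * h + 1,
      s((.inr (p, s, ⟨2 * k, hk⟩) : Vt X P h), D.dn h p s ⟨2 * k, hk⟩) ∉ M := by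
    intro k
    induction k with
    | zero =>
      intro hk hmem
      unfold dn at hmem
      rw [if_pos (by simp)] at hmem
      rw [Sym2.eq_swap] at hmem
      exact e1 _ hmem
    | succ k ih =>
      intro hk hmem
      have hu := (alt ⟨2 * k, by omega⟩).resolve_left (ih (by omega))
      unfold up at hu
      rw [dif_neg (by simp only; omega)] at hu
      unfold dn at hmem
      rw [if_neg (by simp)] at hmem
      have heq : (⟨2 * (k + 1) - 1, by omega⟩ : Fin (2 * h + 1)) = ⟨2 * k + 1, by omega⟩ :=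
        Fin.ext (by simp only; omega)
      simp only [heq] at hmem
      rw [Sym2.eq_swap] at hmem hu
      have := D.m_unique h hM hmem hu
      have := Sum.inr.inj this
      have := (Prod.ext_iff.1 (Prod.ext_iff.1 this).2).2
      have := congrArg Fin.val this
      simp only at this
      omega
  have hfin := (alt ⟨2 * h, by omega⟩).resolve_left (key h (by omega))
  unfold up at hfin
  rw [dif_pos rfl] at hfin
  rw [Sym2.eq_swap] at hfin
  exact e2 _ hfin

include hL hM hcov hC hCL hA in
/-- neighbours on the cycle of an out-vertex -/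
theorem out_vertex {x : X} (hx : (.inl (x, true) : Vt X P h) ∈ C.support) :
    (.inl (x, false) : Vt X P h) ∈ C.support ∧
      ∃ w, D.arc x w ∧ (.inl (w, false) : Vt X P h) ∈ C.support := by
  have h2 := hC.ncard_neighborSet_toSubgraph_eq_two hx
  obtain ⟨a, b, hab, hset⟩ := Set.ncard_eq_two.1 h2
  have hmem : ∀ w ∈ C.toSubgraph.neighborSet (.inl (x, true)), w ∈ C.support ∧
      ∃ y, w = .inl (y, false) ∧ (y = x ∨ D.arc x y) := by
    intro w hw
    have hadj : C.toSubgraph.Adj (.inl (x, true)) w := hw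
    have hwC : w ∈ C.support := by
      rw [← SimpleGraph.Walk.mem_verts_toSubgraph]
      exact C.toSubgraph.edge_vert hadj.symm
    refine ⟨hwC, ?_⟩
    rcases w with ⟨y, s⟩ | ⟨p, s, i⟩
    · have := hadj.adj_sub
      rw [adj_ll] at this
      rcases this with ⟨h1, _⟩ | ⟨h1, h2, h3⟩
      · exact absurd h1 (by decide)
      · subst h1; exact ⟨y, rfl, h3⟩
    · exact absurd hwC (D.no_path h hL hC hCL)
  obtain ⟨haC, ya, rfl, hya⟩ := hmem a (by rw [hset]; simp)
  obtain ⟨hbC, yb, rfl, hyb⟩ := hmem b (by rw [hset]; simp)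
  have hne : ya ≠ yb := by rintro rfl; exact hab rfl
  rcases hya with rfl | hya
  · rcases hyb with rfl | hyb
    · exact absurd rfl hne
    · exact ⟨haC, yb, hyb, hbC⟩
  · rcases hyb with rfl | hyb
    · exact ⟨hbC, ya, hya, haC⟩
    · exfalso
      obtain ⟨p, ⟨h1, h2⟩ | ⟨h1, h2⟩⟩ := D.out x ya yb hya hyb hne
      · exact D.no_pair h hL hM hcov hC hCL hA p false ⟨by rw [h1]; exact haC, by rw [h2]; exact hbC⟩
      · exact D.no_pair h hL hM hcov hC hCL hA p false ⟨by rw [h1]; exact hbC, by rw [h2]; exact haC⟩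

include hL hM hcov hC hCL hA in
theorem exists_closed_aux : ∃ S, D.Closed S := by
  classical
  set A : Finset X := univ.filter (fun x => (.inl (x, true) : Vt X P h) ∈ C.support) with hAdef
  set B : Finset X := univ.filter (fun x => (.inl (x, false) : Vt X P h) ∈ C.support) with hBdef
  have hAB : A ⊆ B := by
    intro x hx
    rw [hAdef, mem_filter] at hx
    rw [hBdef, mem_filter]
    exact ⟨mem_univ _, (D.out_vertex h hL hM hcov hC hCL hA hx.2).1⟩
  have hpart : ∀ x : X, ∃ y : X, x ∈ B → (y ∈ A ∧ s((.inl (x, false) : Vt X P h), .inl (y, true)) ∈ M) := by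
    intro x
    by_cases hx : x ∈ B
    · rw [hBdef, mem_filter] at hx
      obtain ⟨b, hb1, hb2, hb3⟩ := D.partner_on h hA hx.2
      have hadj : (D.graph h).Adj (.inl (x, false)) b := hM.1 _ hb2
      rcases b with ⟨y, s⟩ | ⟨p, s, i⟩
      · rw [adj_ll] at hadj
        rcases hadj with ⟨_, h1, _⟩ | ⟨_, h1, _⟩
        · subst h1
          refine ⟨y, fun _ => ⟨?_, hb2⟩⟩
          rw [hAdef, mem_filter]
          exact ⟨mem_univ _, hb3⟩
        · exact absurd h1 (by decide)
      · exact absurd hb3 (D.no_path h hL hC hCL)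
    · exact ⟨x, fun h => absurd h hx⟩
  choose f hf using hpart
  have hcard : B.card ≤ A.card := by
    apply card_le_card_of_injOn f (fun x hx => (hf x hx).1)
    intro x hx y hy hxy
    have h1 := (hf x hx).2
    have h2 := (hf y hy).2
    rw [← hxy, Sym2.eq_swap] at h2
    rw [Sym2.eq_swap] at h1
    have := D.m_unique h hM h1 h2
    have := Sum.inl.inj this
    exact (Prod.ext_iff.1 this).1
  have hEq : A = B := eq_of_subset_of_card_le hAB hcard
  refine ⟨A, ?_, ?_, ?_⟩
  · have key : ∀ w ∈ C.support, A.Nonempty := by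
      intro w hw
      rcases w with ⟨x, s⟩ | ⟨p, s, i⟩
      · refine ⟨x, ?_⟩
        cases s
        · rw [hEq, hBdef, mem_filter]
          exact ⟨mem_univ _, hw⟩
        · rw [hAdef, mem_filter]
          exact ⟨mem_univ _, hw⟩
      · exact absurd hw (D.no_path h hL hC hCL)
    exact key v₀ C.start_mem_support
  · intro x hx
    rw [hAdef, mem_filter] at hx
    obtain ⟨w, hw1, hw2⟩ := (D.out_vertex h hL hM hcov hC hCL hA hx.2).2
    refine ⟨w, ?_, hw1⟩
    rw [hEq, hBdef, mem_filter]
    exact ⟨mem_univ _, hw2⟩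
  · rintro p ⟨h1, h2⟩
    rw [hAdef, mem_filter] at h1 h2
    exact D.no_pair h hL hM hcov hC hCL hA p true ⟨h1.2, h2.2⟩

end Forward

/-- first half of the equivalence -/
theorem exists_closed {L : ℕ} (hL : L < 2 * h + 1) (hyp : HasShortAltCycle (D.graph h) L) :
    ∃ S, D.Closed S := by
  classical
  obtain ⟨M, hM, v, C, hC, hCL, hA⟩ := hyp
  obtain ⟨μ, hμ1, hμ2⟩ := D.exists_partner_fun h ∅
  have hcov := maxMatching_covers μ (fun v => D.mrel_adj h ∅ (hμ1 v)) hμ2 hM
  have hA' : 2 * (C.edges.filter (fun e => e ∈ M)).length = C.length := by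
    refine (congrArg (fun l : List (Sym2 _) => 2 * l.length)
      (List.filter_congr (fun e _ => ?_))).trans hA
    exact decide_eq_decide.2 Iff.rfl
  exact D.exists_closed_aux h hL hM.1 hcov hC hCL ((alt_iff hM.1 hC).1 hA')

end Dig

end Pool.Agent.H586R2.Sac
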