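import Mathlib
import Pool.Agent.H586R2.Sac.GadgetB

set_option autoImplicit false
set_option linter.unusedSectionVars false

namespace Pool.Agent.H586R2.Sac

open Finset

/-- From a self-map of a nonempty finite set one gets a nonempty subset on which it is a
permutation. -/
theorem exists_perm_subset {X : Type} [DecidableEq X] (S : Finset X) (hS : S.Nonempty) (f : X → X)
    (hf : ∀ x ∈ S, f x ∈ S) :
    ∃ T : Finset X, T ⊆ S ∧ T.Nonempty ∧ (∀ x ∈ T, f x ∈ T) ∧
      (∀ x ∈ T, ∀ y ∈ T, f x = f y → x = y) ∧ ∀ y ∈ T, ∃ x ∈ T, f x = y := by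
  classical
  have hiter : ∀ n : ℕ, ∀ x ∈ S, f^[n] x ∈ S := by
    intro n
    induction n with
    | zero => intro x hx; exact hx
    | succ n ih => intro x hx; rw [Function.iterate_succ_apply]; exact ih _ (hf x hx)
  set T := S.filter (fun x => x ∈ Function.periodicPts f) with hT
  have hmaps : ∀ x ∈ T, f x ∈ T := by
    intro x hx
    rw [hT, mem_filter] at hx ⊢
    exact ⟨hf x hx.1, (Function.bijOn_periodicPts f).mapsTo hx.2⟩
  refine ⟨T, filter_subset _ _, ?_, hmaps, ?_, ?_⟩
  · obtain ⟨x, hx⟩ := hS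
    -- pigeonhole on the iterates
    have hmap : ∀ n ∈ range (S.card + 1), f^[n] x ∈ S := fun n _ => hiter n x hx
    obtain ⟨a, ha, b, hb, hab, heq⟩ := exists_ne_map_eq_of_card_lt_of_maps_to
      (by rw [card_range]; omega) hmap
    wlog hlt : a < b generalizing a b
    · exact this b hb a ha hab.symm heq.symm (by omega)
    refine ⟨f^[a] x, ?_⟩
    rw [hT, mem_filter]
    refine ⟨hiter a x hx, ?_⟩
    refine ⟨b - a, by omega, ?_⟩
    unfold Function.IsPeriodicPt Function.IsFixedPt
    rw [← Function.iterate_add_apply, Nat.sub_add_cancel hlt.le, heq]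
  · intro x hx y hy hxy
    rw [hT, mem_filter] at hx hy
    exact (Function.bijOn_periodicPts f).injOn hx.2 hy.2 hxy
  · intro y hy
    -- surjectivity from injectivity on a finite set
    have hinj : Set.InjOn f (T : Set X) := by
      intro x hx y hy hxy
      rw [mem_coe, hT, mem_filter] at hx hy
      exact (Function.bijOn_periodicPts f).injOn hx.2 hy.2 hxy
    have himg : T.image f = T := by
      apply eq_of_subset_of_card_le
      · intro z hz
        rw [mem_image] at hz
        obtain ⟨x, hx, rfl⟩ := hz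
        exact hmaps x hx
      · rw [card_image_of_injOn hinj]
    rw [← himg, mem_image] at hy
    exact hy

namespace Dig

variable {X P : Type} [Fintype X] [DecidableEq X] [Fintype P] [DecidableEq P] (D : Dig X P) (h : ℕ)

/-- the light alternating cycle, as a graph -/
def cyc (T : Finset X) (f : X → X) : SimpleGraph (Vt X P h) :=
  SimpleGraph.fromRel (fun a b => ∃ x ∈ T, a = .inl (x, true) ∧ (b = .inl (x, false) ∨
    b = .inl (f x, false)))

theorem cyc_adj (T : Finset X) (f : X → X) (a b : Vt X P h) : (cyc h T f : SimpleGraph (Vt X P h)).Adj a b ↔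
    (∃ x ∈ T, a = .inl (x, true) ∧ (b = .inl (x, false) ∨ b = .inl (f x, false))) ∨
    (∃ x ∈ T, b = .inl (x, true) ∧ (a = .inl (x, false) ∨ a = .inl (f x, false))) := by
  unfold cyc
  rw [SimpleGraph.fromRel_adj]
  constructor
  · exact fun h => h.2
  · intro hab
    refine ⟨?_, hab⟩
    rintro rfl
    rcases hab with ⟨x, _, h1, h2 | h2⟩ | ⟨x, _, h1, h2 | h2⟩ <;> rw [h1] at h2 <;>
      · have := (Prod.ext_iff.1 (Sum.inl.inj h2)).2
        exact absurd this (by simp)

theorem nbr_out (T : Finset X) (f : X → X) {x : X} (hx : x ∈ T) :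
    (cyc h T f : SimpleGraph (Vt X P h)).neighborSet (.inl (x, true)) =
      {.inl (x, false), .inl (f x, false)} := by
  ext b
  rw [SimpleGraph.mem_neighborSet, cyc_adj]
  constructor
  · rintro (⟨y, _, h1, h2⟩ | ⟨y, _, _, h2 | h2⟩)
    · have := (Prod.ext_iff.1 (Sum.inl.inj h1)).1
      simp only at this
      rw [← this] at h2
      exact h2
    · exact absurd (Prod.ext_iff.1 (Sum.inl.inj h2)).2 (by simp)
    · exact absurd (Prod.ext_iff.1 (Sum.inl.inj h2)).2 (by simp)
  · intro hb
    exact Or.inl ⟨x, hx, rfl, hb⟩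

theorem nbr_in (T : Finset X) (f : X → X) (hinj : ∀ x ∈ T, ∀ y ∈ T, f x = f y → x = y) {x : X}
    (hx : x ∈ T) (hfx : f x ∈ T) :
    (cyc h T f : SimpleGraph (Vt X P h)).neighborSet (.inl (f x, false)) =
      {.inl (f x, true), .inl (x, true)} := by
  ext b
  rw [SimpleGraph.mem_neighborSet, cyc_adj]
  constructor
  · rintro (⟨y, _, h1, _⟩ | ⟨y, hy, h1, h2 | h2⟩)
    · exact absurd (Prod.ext_iff.1 (Sum.inl.inj h1)).2 (by simp)
    · have := (Prod.ext_iff.1 (Sum.inl.inj h2)).1
      simp only at this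
      left; rw [h1, this]
    · have := (Prod.ext_iff.1 (Sum.inl.inj h2)).1
      simp only at this
      have := hinj x hx y hy this
      right; rw [h1, this]; rfl
  · rintro (hb | hb)
    · exact Or.inr ⟨f x, hfx, hb, Or.inl rfl⟩
    · exact Or.inr ⟨x, hx, hb, Or.inr rfl⟩

/-- second half of the equivalence -/
theorem hasShort_of_closed {L : ℕ} (hL : 2 * Fintype.card X ≤ L) {S : Finset X}
    (hS : D.Closed S) : HasShortAltCycle (D.graph h) L := by
  classical
  obtain ⟨hne, hnext, hpair⟩ := hS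
  have : ∀ x : X, ∃ w, x ∈ S → (w ∈ S ∧ D.arc x w) := by
    intro x
    by_cases hx : x ∈ S
    · obtain ⟨w, hw, hw2⟩ := hnext x hx
      exact ⟨w, fun _ => ⟨hw, hw2⟩⟩
    · exact ⟨x, fun h => absurd h hx⟩
  choose f hf using this
  obtain ⟨T, hTS, ⟨x₀, hx₀⟩, hmaps, hinj, hsurj⟩ :=
    exists_perm_subset S hne f (fun x hx => (hf x hx).1)
  have harc : ∀ x ∈ T, D.arc x (f x) := fun x hx => (hf x (hTS hx)).2
  have hfne : ∀ x ∈ T, f x ≠ x := fun x hx heq => D.irr x (by
    have := harc x hx; rwa [heq] at this)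
  have hTpair : ∀ p, ¬ (D.fst p ∈ T ∧ D.snd p ∈ T) := fun p hp => hpair p ⟨hTS hp.1, hTS hp.2⟩
  -- the matching
  obtain ⟨μ, hμ1, hμ2⟩ := D.exists_partner_fun h T
  have hM := partner_matching μ (fun v => D.mrel_adj h T (hμ1 v)) hμ2
  have hμloop : ∀ x ∈ T, ∀ s : Bool, μ (.inl (x, s)) = .inl (x, !s) := by
    intro x hx s
    apply D.mrel_unique h T (hμ1 _)
    have hcz : ∀ p, D.cz T p ≠ x := by
      intro p hp
      unfold cz at hp
      split_ifs at hp with hc
      · exact hTpair p ⟨hc, by rw [hp]; exact hx⟩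
      · rw [hp] at hc; exact hc hx
    cases s
    · exact Or.inl ⟨rfl, rfl, rfl, hcz⟩
    · exact Or.inr ⟨rfl, rfl, rfl, hcz⟩
  -- the cycle
  set H : SimpleGraph (Vt X P h) := cyc h T f with hH
  have hHle : H ≤ D.graph h := by
    intro a b hab
    rw [hH, cyc_adj] at hab
    have key : ∀ a b : Vt X P h, (∃ x ∈ T, a = .inl (x, true) ∧ (b = .inl (x, false) ∨
        b = .inl (f x, false))) → (D.graph h).Adj a b := by
      rintro a b ⟨x, hx, rfl, rfl | rfl⟩
      · rw [adj_ll]; exact Or.inr ⟨rfl, rfl, Or.inl rfl⟩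
      · rw [adj_ll]; exact Or.inr ⟨rfl, rfl, Or.inr (harc x hx)⟩
    rcases hab with hab | hab
    · exact key a b hab
    · exact (key b a hab).symm
  have hHv : ∀ v, (H.neighborSet v).Nonempty → ∃ x ∈ T, ∃ s, v = .inl (x, s) := by
    rintro v ⟨w, hw⟩
    rw [SimpleGraph.mem_neighborSet, hH, cyc_adj] at hw
    rcases hw with ⟨x, hx, h1, _⟩ | ⟨x, hx, _, h1 | h1⟩
    · exact ⟨x, hx, true, h1⟩
    · exact ⟨x, hx, false, h1⟩
    · exact ⟨f x, hmaps x hx, false, h1⟩
  have hcyc : H.IsCycles := by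
    intro v hv
    obtain ⟨x, hx, s, rfl⟩ := hHv v hv
    cases s
    · obtain ⟨y, hy, rfl⟩ := hsurj x hx
      rw [hH, nbr_in h T f hinj hy hx]
      apply Set.ncard_pair
      intro heq
      have := (Prod.ext_iff.1 (Sum.inl.inj heq)).1
      exact hfne y hy this
    · rw [hH, nbr_out h T f hx]
      apply Set.ncard_pair
      intro heq
      have := (Prod.ext_iff.1 (Sum.inl.inj heq)).1
      exact hfne x hx this.symm
  have hv0 : (H.neighborSet (.inl (x₀, true))).Nonempty := by
    rw [hH, nbr_out h T f hx₀]; exact ⟨_, Or.inl rfl⟩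
  obtain ⟨p, hp, _⟩ := hcyc.exists_cycle_toSubgraph_verts_eq_connectedComponentSupp
    (c := H.connectedComponentMk (.inl (x₀, true))) rfl hv0
  have hpsupp : ∀ v ∈ p.support, ∃ x ∈ T, ∃ s, v = .inl (x, s) := by
    intro v hv
    apply hHv
    have h2 := hp.ncard_neighborSet_toSubgraph_eq_two hv
    exact (Set.nonempty_of_ncard_ne_zero (by rw [h2]; norm_num)).mono
      (p.toSubgraph.neighborSet_subset v)
  have hplen : p.length ≤ L := by
    rw [← card_support hp]
    have hsub : p.support.toFinset ⊆ (univ : Finset (X × Bool)).image (fun z => (.inl z : Vt X P h)) := by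
      intro v hv
      rw [List.mem_toFinset] at hv
      obtain ⟨x, _, s, rfl⟩ := hpsupp v hv
      exact mem_image_of_mem _ (mem_univ _)
    refine (card_le_card hsub).trans (card_image_le.trans ?_)
    rw [card_univ, Fintype.card_prod, Fintype.card_bool]
    omega
  have hMm : IsMaxMatching (D.graph h) (univ.image (fun v => s(v, μ v))) := hM
  refine ⟨univ.image (fun v => s(v, μ v)), hMm, .inl (x₀, true), p.mapLe hHle, hp.mapLe hHle, ?_, ?_⟩
  · rw [SimpleGraph.Walk.length_mapLe]; exact hplen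
  · have hiff := (alt_iff hMm.1 (hp.mapLe hHle)).2 (by
      intro v hv
      rw [SimpleGraph.Walk.support_mapLe_eq_support] at hv
      obtain ⟨x, hx, s, rfl⟩ := hpsupp v hv
      refine ⟨s(.inl (x, s), .inl (x, !s)), ?_, ?_, by simp⟩
      · rw [SimpleGraph.Walk.edges_mapLe_eq_edges]
        have hadj : H.Adj (.inl (x, s)) (.inl (x, !s)) := by
          rw [hH, cyc_adj]
          cases s
          · exact Or.inr ⟨x, hx, rfl, Or.inl rfl⟩
          · exact Or.inl ⟨x, hx, rfl, Or.inl rfl⟩
        have hmem : (.inl (x, s) : Vt X P h) ∈ p.toSubgraph.verts := by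
          rw [SimpleGraph.Walk.mem_verts_toSubgraph]; exact hv
        have := (hp.adj_toSubgraph_iff_of_isCycles hcyc hmem (.inl (x, !s))).2 hadj
        exact SimpleGraph.Walk.adj_toSubgraph_iff_mem_edges.1 this
      · rw [mem_image]
        exact ⟨.inl (x, s), mem_univ _, by rw [hμloop x hx s]⟩)
    refine (congrArg (fun l : List (Sym2 _) => 2 * l.length)
      (List.filter_congr (fun e _ => ?_))).trans hiff
    exact decide_eq_decide.2 Iff.rfl

/-- the equivalence -/
theorem hasShort_iff {L : ℕ} (hL : 2 * Fintype.card X ≤ L) (hL' : L < 2 * h + 1) :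
    HasShortAltCycle (D.graph h) L ↔ ∃ S, D.Closed S :=
  ⟨D.exists_closed h hL', fun ⟨_, hS⟩ => D.hasShort_of_closed h hL hS⟩

end Dig

end Pool.Agent.H586R2.Sac
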