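import Mathlib
import Pool.Agent.H586R2.Sac.Defs

set_option autoImplicit false

/-!
Instances of the shortest alternating cycle problem.
-/

namespace Pool.Agent.H586R2.Sac

/-- An instance of SAC: a graph on the vertices `0, …, n-1`, given by its `n × n` adjacency matrix,
and the number `L`. -/
abbrev Inst : Type := List (List Bool) × ℕ

namespace Inst

/-- The entry of the adjacency matrix in row `u` and column `v`. -/
def entry (I : Inst) (u v : ℕ) : Bool := (I.1.getD u []).getD v false

/-- The matrix is square and symmetric with zero diagonal, and `1 ≤ L ≤ |V|`. -/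
def Valid (I : Inst) : Prop :=
  (∀ row ∈ I.1, row.length = I.1.length) ∧
    (∀ u < I.1.length, ∀ v < I.1.length, I.entry u v = I.entry v u) ∧
    (∀ u < I.1.length, I.entry u u = false) ∧ 1 ≤ I.2 ∧ I.2 ≤ I.1.length

/-- The graph of the instance. -/
def graph (I : Inst) : SimpleGraph (Fin I.1.length) :=
  SimpleGraph.fromRel (fun u v => I.entry u v = true)

end Inst

/-- `G` has a perfect matching: a matching that covers all vertices. -/
def HasPerfectMatching {V : Type} (G : SimpleGraph V) : Prop :=
  ∃ M : Finset (Sym2 V), IsMatching G M ∧ ∀ v, ∃ e ∈ M, v ∈ e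

end Pool.Agent.H586R2.Sac
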