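import Mathlib
import Pool.Agent.H586R2.Sac.GadgetC

set_option autoImplicit false
set_option linter.unusedSectionVars false

namespace Pool.Agent.H586R2.Sac

/-- descriptors of vertices of the digraph -/
abbrev XD : Type := ℕ × ℕ × ℕ

/-- the arcs -/
def arcD (N : ℕ) (x y : XD) : Prop :=
  (x.1 = 0 ∧ y.1 = 2 ∧ y.2.1 = 3 * x.2.1) ∨
  (x.1 = 0 ∧ y.1 = 3 ∧ y.2.1 = 3 * x.2.1 ∧ y.2.2 = 0) ∨
  (x.1 = 0 ∧ 3 * x.2.1 = N ∧ y.1 = 1) ∨
  (x.1 = 1 ∧ y.1 = 0 ∧ y.2.1 = 0) ∨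
  (x.1 = 2 ∧ x.2.1 % 3 ≠ 2 ∧ y.1 = 2 ∧ y.2.1 = x.2.1 + 1) ∨
  (x.1 = 2 ∧ x.2.1 % 3 ≠ 2 ∧ y.1 = 3 ∧ y.2.1 = x.2.1 + 1 ∧ y.2.2 = 0) ∨
  (x.1 = 3 ∧ y.1 = 3 ∧ y.2.1 = x.2.1 ∧ y.2.2 = x.2.2 + 1) ∨
  (x.1 = 3 ∧ x.2.2 = N ∧ y.1 = 0 ∧ y.2.1 = x.2.1 / 3 + 1)

instance (N : ℕ) (x y : XD) : Decidable (arcD N x y) := by unfold arcD; infer_instance

/-- the vertices -/
def XMem (N : ℕ) (x : XD) : Prop :=
  (x.1 = 0 ∧ x.2.1 ≤ N ∧ x.2.2 = 0) ∨ (x.1 = 1 ∧ x.2.1 = 0 ∧ x.2.2 = 0) ∨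
  (x.1 = 2 ∧ x.2.1 < N ∧ x.2.2 = 0) ∨ (x.1 = 3 ∧ x.2.1 < N ∧ x.2.2 ≤ N)

theorem xm0 {N a : ℕ} (h : a ≤ N) : XMem N (0, a, 0) := Or.inl ⟨rfl, h, rfl⟩
theorem xm2 {N a : ℕ} (h : a < N) : XMem N (2, a, 0) := Or.inr (Or.inr (Or.inl ⟨rfl, h, rfl⟩))
theorem xm3 {N a b : ℕ} (h : a < N) (h' : b ≤ N) : XMem N (3, a, b) :=
  Or.inr (Or.inr (Or.inr ⟨rfl, h, h'⟩))

theorem ar1 {N a b c : ℕ} : arcD N (0, a, b) (2, 3 * a, c) := Or.inl ⟨rfl, rfl, rfl⟩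
theorem ar2 {N a b : ℕ} : arcD N (0, a, b) (3, 3 * a, 0) := Or.inr (Or.inl ⟨rfl, rfl, rfl, rfl⟩)
theorem ar3 {N a b c d : ℕ} (h : 3 * a = N) : arcD N (0, a, b) (1, c, d) :=
  Or.inr (Or.inr (Or.inl ⟨rfl, h, rfl⟩))
theorem ar4 {N a b c : ℕ} : arcD N (1, a, b) (0, 0, c) :=
  Or.inr (Or.inr (Or.inr (Or.inl ⟨rfl, rfl, rfl⟩)))
theorem ar5 {N a b c : ℕ} (h : a % 3 ≠ 2) : arcD N (2, a, b) (2, a + 1, c) :=
  Or.inr (Or.inr (Or.inr (Or.inr (Or.inl ⟨rfl, h, rfl, rfl⟩))))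
theorem ar6 {N a b : ℕ} (h : a % 3 ≠ 2) : arcD N (2, a, b) (3, a + 1, 0) :=
  Or.inr (Or.inr (Or.inr (Or.inr (Or.inr (Or.inl ⟨rfl, h, rfl, rfl, rfl⟩)))))
theorem ar7 {N a b : ℕ} : arcD N (3, a, b) (3, a, b + 1) :=
  Or.inr (Or.inr (Or.inr (Or.inr (Or.inr (Or.inr (Or.inl ⟨rfl, rfl, rfl, rfl⟩))))))
theorem ar8 {N a b c : ℕ} (h : b = N) : arcD N (3, a, b) (0, a / 3 + 1, c) :=
  Or.inr (Or.inr (Or.inr (Or.inr (Or.inr (Or.inr (Or.inr ⟨rfl, h, rfl, rfl⟩))))))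

/-- contradictory literals -/
def Contr (lit : ℕ → Bool × ℕ) (k k' : ℕ) : Prop :=
  (lit k).2 = (lit k').2 ∧ (lit k).1 ≠ (lit k').1

/-- the forbidden pairs -/
def PMem (N : ℕ) (lit : ℕ → Bool × ℕ) (p : XD × XD) : Prop :=
  (∃ k, k < N ∧ p = ((3, k, 0), (2, k, 0))) ∨
  (∃ k k', k < k' ∧ k' < N ∧ Contr lit k k' ∧ p = ((3, k, k' + 1), (3, k', k + 1)))

theorem PMem.fst_mem {N : ℕ} {lit : ℕ → Bool × ℕ} {p : XD × XD} (h : PMem N lit p) :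
    XMem N p.1 := by
  rcases h with ⟨k, hk, rfl⟩ | ⟨k, k', h1, h2, _, rfl⟩
  · exact Or.inr (Or.inr (Or.inr ⟨rfl, hk, Nat.zero_le _⟩))
  · exact Or.inr (Or.inr (Or.inr ⟨rfl, by simp only; omega, by simp only; omega⟩))

theorem PMem.snd_mem {N : ℕ} {lit : ℕ → Bool × ℕ} {p : XD × XD} (h : PMem N lit p) :
    XMem N p.2 := by
  rcases h with ⟨k, hk, rfl⟩ | ⟨k, k', h1, h2, _, rfl⟩
  · exact Or.inr (Or.inr (Or.inl ⟨rfl, hk, rfl⟩))
  · exact Or.inr (Or.inr (Or.inr ⟨rfl, by simp only; omega, by simp only; omega⟩))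

/-- the digraph -/
def dig (m : ℕ) (lit : ℕ → Bool × ℕ) :
    Dig {x : XD // XMem (3 * m) x} {p : XD × XD // PMem (3 * m) lit p} where
  arc x y := arcD (3 * m) x.1 y.1
  fst p := ⟨p.1.1, p.2.fst_mem⟩
  snd p := ⟨p.1.2, p.2.snd_mem⟩
  irr := by
    rintro ⟨⟨t, a, b⟩, hx⟩ h
    simp only [arcD] at h
    omega
  ne := by
    rintro ⟨p, ⟨k, hk, rfl⟩ | ⟨k, k', h1, h2, _, rfl⟩⟩ h
    · simp at h
    · simp only [Subtype.mk.injEq, Prod.mk.injEq] at h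
      omega
  uniq := by
    rintro ⟨p, hp⟩ ⟨q, hq⟩ ⟨⟨t, a, b⟩, hx⟩ h h'
    rcases hp with ⟨k, hk, rfl⟩ | ⟨k, k', h1, h2, _, rfl⟩ <;>
      rcases hq with ⟨l, hl, rfl⟩ | ⟨l, l', g1, g2, _, rfl⟩ <;>
      simp only [Subtype.mk.injEq, Prod.mk.injEq] at h h'
    · have : k = l := by omega
      subst this
      rfl
    · omega
    · omega
    · have : k = l ∧ k' = l' := by omega
      obtain ⟨rfl, rfl⟩ := this
      rfl
  out := by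
    rintro ⟨⟨t, a, b⟩, hx⟩ ⟨⟨t1, a1, b1⟩, hx1⟩ ⟨⟨t2, a2, b2⟩, hx2⟩ h1 h2 hne
    simp only [arcD] at h1 h2
    have hne' : ¬ (t1 = t2 ∧ a1 = a2 ∧ b1 = b2) := by
      rintro ⟨rfl, rfl, rfl⟩
      exact hne rfl
    simp only [XMem] at hx hx1 hx2
    have key : (t1 = 3 ∧ b1 = 0 ∧ t2 = 2 ∧ b2 = 0 ∧ a1 = a2 ∧ a1 < 3 * m) ∨
        (t2 = 3 ∧ b2 = 0 ∧ t1 = 2 ∧ b1 = 0 ∧ a1 = a2 ∧ a1 < 3 * m) := by
      rcases h1 with h1 | h1 | h1 | h1 | h1 | h1 | h1 | h1 <;>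
        rcases h2 with h2 | h2 | h2 | h2 | h2 | h2 | h2 | h2 <;> omega
    rcases key with ⟨rfl, rfl, rfl, rfl, rfl, hlt⟩ | ⟨rfl, rfl, rfl, rfl, rfl, hlt⟩
    · exact ⟨⟨_, Or.inl ⟨a1, hlt, rfl⟩⟩, Or.inl ⟨rfl, rfl⟩⟩
    · exact ⟨⟨_, Or.inl ⟨a1, hlt, rfl⟩⟩, Or.inr ⟨rfl, rfl⟩⟩

section Equiv

variable (m : ℕ) (lit : ℕ → Bool × ℕ) [Fintype {x : XD // XMem (3 * m) x}]
  [Fintype {p : XD × XD // PMem (3 * m) lit p}]

/-- one literal is chosen in each clause, and no two chosen literals are contradictory -/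
def Choice (s : ℕ → ℕ) : Prop :=
  (∀ j < m, 3 * j ≤ s j ∧ s j ≤ 3 * j + 2) ∧ ∀ j < m, ∀ j' < m, ¬ Contr lit (s j) (s j')

theorem choice_of_closed {S : Finset {x : XD // XMem (3 * m) x}} (hS : (dig m lit).Closed S) :
    ∃ s, Choice m lit s := by
  set In : XD → Prop := fun a => ∃ h : XMem (3 * m) a, (⟨a, h⟩ : {x : XD // XMem (3 * m) x}) ∈ S
    with hIn
  obtain ⟨⟨x0, hx0⟩, hne⟩ := hS.1
  have c1 : ∀ a, In a → ∃ b, In b ∧ arcD (3 * m) a b := by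
    rintro a ⟨h, ha⟩
    obtain ⟨⟨b, hb⟩, hbS, hab⟩ := hS.2.1 _ ha
    exact ⟨b, ⟨hb, hbS⟩, hab⟩
  have c2 : ∀ p, PMem (3 * m) lit p → ¬ (In p.1 ∧ In p.2) := by
    rintro p hp ⟨⟨h1, h2⟩, ⟨h3, h4⟩⟩
    exact hS.2.2 ⟨p, hp⟩ ⟨h2, h4⟩
  have c3 : ∀ a, In a → XMem (3 * m) a := fun a h => h.1
  -- chains
  have d3 : ∀ k b, In (3, k, b) → b < 3 * m → In (3, k, b + 1) := by
    intro k b h hb
    obtain ⟨⟨t, a', b'⟩, h1, h2⟩ := c1 _ h
    have h3 := c3 _ h1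
    simp only [arcD, XMem] at h2 h3
    have : t = 3 ∧ a' = k ∧ b' = b + 1 := by omega
    obtain ⟨rfl, rfl, rfl⟩ := this
    exact h1
  have d3' : ∀ k b, In (3, k, b) → ∀ t, b + t ≤ 3 * m → In (3, k, b + t) := by
    intro k b h t
    induction t with
    | zero => intro _; exact h
    | succ t ih =>
      intro ht
      exact d3 k (b + t) (ih (by omega)) (by omega)
  have d3'' : ∀ k b, In (3, k, b) → In (0, k / 3 + 1, 0) := by
    intro k b h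
    have h0 := c3 _ h
    simp only [XMem] at h0
    have h4 : In (3, k, 3 * m) := by
      have := d3' k b h (3 * m - b) (by omega)
      rwa [show b + (3 * m - b) = 3 * m by omega] at this
    obtain ⟨⟨t, a', b'⟩, h1, h2⟩ := c1 _ h4
    have h3 := c3 _ h1
    simp only [arcD, XMem] at h2 h3
    have : t = 0 ∧ a' = k / 3 + 1 ∧ b' = 0 := by omega
    obtain ⟨rfl, rfl, rfl⟩ := this
    exact h1
  -- skips
  have d2 : ∀ k, In (2, k, 0) → k % 3 ≠ 2 ∧ (In (2, k + 1, 0) ∨ In (3, k + 1, 0)) := by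
    intro k h
    obtain ⟨⟨t, a', b'⟩, h1, h2⟩ := c1 _ h
    have h3 := c3 _ h1
    simp only [arcD, XMem] at h2 h3
    have : k % 3 ≠ 2 ∧ ((t = 2 ∧ a' = k + 1 ∧ b' = 0) ∨ (t = 3 ∧ a' = k + 1 ∧ b' = 0)) := by omega
    obtain ⟨hk, ⟨rfl, rfl, rfl⟩ | ⟨rfl, rfl, rfl⟩⟩ := this
    · exact ⟨hk, Or.inl h1⟩
    · exact ⟨hk, Or.inr h1⟩
  have d2' : ∀ k, In (2, k, 0) → ∃ k', k < k' ∧ k' / 3 = k / 3 ∧ In (3, k', 0) := by
    intro k h
    obtain ⟨h1, h2 | h2⟩ := d2 k h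
    · obtain ⟨h3, h4 | h4⟩ := d2 (k + 1) h2
      · obtain ⟨h5, _⟩ := d2 (k + 2) h4
        omega
      · exact ⟨k + 2, by omega, by omega, h4⟩
    · exact ⟨k + 1, by omega, by omega, h2⟩
  -- clause vertices
  have d0 : ∀ j, In (0, j, 0) → j ≠ m → ∃ k, k / 3 = j ∧ In (3, k, 0) := by
    intro j h hj
    obtain ⟨⟨t, a', b'⟩, h1, h2⟩ := c1 _ h
    have h3 := c3 _ h1
    simp only [arcD, XMem] at h2 h3
    have : (t = 2 ∧ a' = 3 * j ∧ b' = 0) ∨ (t = 3 ∧ a' = 3 * j ∧ b' = 0) := by omega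
    rcases this with ⟨rfl, rfl, rfl⟩ | ⟨rfl, rfl, rfl⟩
    · obtain ⟨k', _, h5, h6⟩ := d2' _ h1
      exact ⟨k', by omega, h6⟩
    · exact ⟨3 * j, by omega, h1⟩
  have d0' : ∀ j, In (0, j, 0) → j ≠ m → In (0, j + 1, 0) := by
    intro j h hj
    obtain ⟨k, hk, h1⟩ := d0 j h hj
    have := d3'' k 0 h1
    rwa [hk] at this
  have dlt : ∀ j, In (0, j, 0) → j ≤ m := by
    intro j h
    by_contra hj
    obtain ⟨k, hk, h1⟩ := d0 j h (by omega)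
    have := c3 _ h1
    simp only [XMem] at this
    omega
  have dm : ∀ j, In (0, j, 0) → In (0, m, 0) := by
    intro j h
    have hj := dlt j h
    obtain ⟨t, rfl⟩ := Nat.exists_eq_add_of_le hj
    have : ∀ u, u ≤ t → In (0, j + u, 0) := by
      intro u
      induction u with
      | zero => intro _; exact h
      | succ u ih =>
        intro hu
        exact d0' (j + u) (ih (by omega)) (by omega)
    exact this t le_rfl
  have df : In (0, m, 0) → In (1, 0, 0) := by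
    intro h
    obtain ⟨⟨t, a', b'⟩, h1, h2⟩ := c1 _ h
    have h3 := c3 _ h1
    simp only [arcD, XMem] at h2 h3
    have : t = 1 ∧ a' = 0 ∧ b' = 0 := by omega
    obtain ⟨rfl, rfl, rfl⟩ := this
    exact h1
  have de : In (1, 0, 0) → In (0, 0, 0) := by
    intro h
    obtain ⟨⟨t, a', b'⟩, h1, h2⟩ := c1 _ h
    have h3 := c3 _ h1
    simp only [arcD, XMem] at h2 h3
    have : t = 0 ∧ a' = 0 ∧ b' = 0 := by omega
    obtain ⟨rfl, rfl, rfl⟩ := this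
    exact h1
  have start : In (0, 0, 0) := by
    have hx : In x0 := ⟨hx0, hne⟩
    obtain ⟨t, a, b⟩ := x0
    simp only [XMem] at hx0
    have : (t = 0 ∧ b = 0) ∨ (t = 1 ∧ a = 0 ∧ b = 0) ∨ (t = 2 ∧ b = 0) ∨ t = 3 := by omega
    rcases this with ⟨rfl, rfl⟩ | ⟨rfl, rfl, rfl⟩ | ⟨rfl, rfl⟩ | rfl
    · exact de (df (dm _ hx))
    · exact de hx
    · obtain ⟨k', _, _, h⟩ := d2' _ hx
      exact de (df (dm _ (d3'' _ _ h)))
    · exact de (df (dm _ (d3'' _ _ hx)))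
  have all : ∀ j, j ≤ m → In (0, j, 0) := by
    intro j
    induction j with
    | zero => intro _; exact start
    | succ j ih =>
      intro hj
      exact d0' j (ih (by omega)) (by omega)
  have pick : ∀ j, ∃ k, j < m → k / 3 = j ∧ In (3, k, 0) := by
    intro j
    by_cases hj : j < m
    · obtain ⟨k, hk⟩ := d0 j (all j (by omega)) (by omega)
      exact ⟨k, fun _ => hk⟩
    · exact ⟨0, fun h => absurd h hj⟩
  choose s hs using pick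
  refine ⟨s, ?_, ?_⟩
  · intro j hj
    have := (hs j hj).1
    omega
  · have key : ∀ j j', j < m → j' < m → j < j' → ¬ Contr lit (s j) (s j') := by
      intro j j' hj hj' hlt hc
      have h1 := hs j hj
      have h2 := hs j' hj'
      have b2 := c3 _ h2.2
      simp only [XMem] at b2
      refine c2 ((3, s j, s j' + 1), (3, s j', s j + 1))
        (Or.inr ⟨s j, s j', by omega, by omega, hc, rfl⟩) ⟨?_, ?_⟩
      · have := d3' _ _ h1.2 (s j' + 1) (by omega)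
        rwa [zero_add] at this
      · have := d3' _ _ h2.2 (s j + 1) (by omega)
        rwa [zero_add] at this
    intro j hj j' hj' hc
    rcases lt_trichotomy j j' with h | h | h
    · exact key j j' hj hj' h hc
    · subst h
      exact hc.2 rfl
    · exact key j' j hj' hj h ⟨hc.1.symm, hc.2.symm⟩

theorem closed_of_choice {s : ℕ → ℕ} (hs : Choice m lit s) :
    ∃ S : Finset {x : XD // XMem (3 * m) x}, (dig m lit).Closed S := by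
  classical
  obtain ⟨hs1, hs2⟩ := hs
  set In : XD → Prop := fun x => (x.1 = 0 ∧ x.2.1 ≤ m) ∨ x.1 = 1 ∨ (x.1 = 2 ∧ x.2.1 < s (x.2.1 / 3)) ∨
    (x.1 = 3 ∧ x.2.1 = s (x.2.1 / 3)) with hIn
  have one : XMem (3 * m) (1, 0, 0) := Or.inr (Or.inl ⟨rfl, rfl, rfl⟩)
  refine ⟨Finset.univ.filter (fun x => In x.1), ?_, ?_, ?_⟩
  · refine ⟨⟨(1, 0, 0), one⟩, ?_⟩
    rw [Finset.mem_filter]
    exact ⟨Finset.mem_univ _, Or.inr (Or.inl rfl)⟩
  · rintro ⟨⟨t, a, b⟩, hx⟩ hin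
    rw [Finset.mem_filter] at hin
    have hin := hin.2
    suffices h : ∃ y : XD, XMem (3 * m) y ∧ In y ∧ arcD (3 * m) (t, a, b) y by
      obtain ⟨y, h1, h2, h3⟩ := h
      exact ⟨⟨y, h1⟩, by rw [Finset.mem_filter]; exact ⟨Finset.mem_univ _, h2⟩, h3⟩
    simp only [hIn] at hin
    simp only [XMem] at hx
    rcases hin with ⟨rfl, ha⟩ | rfl | ⟨rfl, ha⟩ | ⟨rfl, ha⟩
    · rcases Nat.lt_or_ge a m with h | h
      · have := hs1 a h
        by_cases h3 : s a = 3 * a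
        · refine ⟨(3, 3 * a, 0), xm3 (by omega) (Nat.zero_le _),
            Or.inr (Or.inr (Or.inr ⟨rfl, ?_⟩)), ar2⟩
          simp only
          rw [show 3 * a / 3 = a by omega, h3]
        · refine ⟨(2, 3 * a, 0), xm2 (by omega), Or.inr (Or.inr (Or.inl ⟨rfl, ?_⟩)), ar1⟩
          simp only
          rw [show 3 * a / 3 = a by omega]
          omega
      · exact ⟨(1, 0, 0), one, Or.inr (Or.inl rfl), ar3 (by omega)⟩
    · exact ⟨(0, 0, 0), xm0 (Nat.zero_le _), Or.inl ⟨rfl, Nat.zero_le _⟩, ar4⟩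
    · have := hs1 (a / 3) (by omega)
      by_cases h3 : s (a / 3) = a + 1
      · refine ⟨(3, a + 1, 0), xm3 (by omega) (Nat.zero_le _),
          Or.inr (Or.inr (Or.inr ⟨rfl, ?_⟩)), ar6 (by omega)⟩
        simp only
        rw [show (a + 1) / 3 = a / 3 by omega, h3]
      · refine ⟨(2, a + 1, 0), xm2 (by omega), Or.inr (Or.inr (Or.inl ⟨rfl, ?_⟩)), ar5 (by omega)⟩
        simp only
        rw [show (a + 1) / 3 = a / 3 by omega]
        omega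
    · by_cases hb : b = 3 * m
      · refine ⟨(0, a / 3 + 1, 0), xm0 (by omega), Or.inl ⟨rfl, ?_⟩, ar8 hb⟩
        simp only; omega
      · exact ⟨(3, a, b + 1), xm3 (by omega) (by omega), Or.inr (Or.inr (Or.inr ⟨rfl, ha⟩)), ar7⟩
  · rintro ⟨p, ⟨k, hk, rfl⟩ | ⟨k, k', h1, h2, hc, rfl⟩⟩ ⟨g1, g2⟩
    · rw [Finset.mem_filter] at g1 g2
      have g1 := g1.2
      have g2 := g2.2
      simp only [hIn, dig] at g1 g2
      omega
    · rw [Finset.mem_filter] at g1 g2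
      have g1 := g1.2
      have g2 := g2.2
      simp only [hIn, dig] at g1 g2
      have e1 : k = s (k / 3) := by omega
      have e2 : k' = s (k' / 3) := by omega
      refine hs2 (k / 3) (by omega) (k' / 3) (by omega) ?_
      rw [← e1, ← e2]
      exact hc

theorem closed_iff : (∃ S, (dig m lit).Closed S) ↔ ∃ s, Choice m lit s :=
  ⟨fun ⟨_, hS⟩ => choice_of_closed m lit hS, fun ⟨_, hs⟩ => closed_of_choice m lit hs⟩

end Equiv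

end Pool.Agent.H586R2.Sac
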