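import Mathlib
import Pool.Agent.H586R2.Sac.Layer
import Pool.Agent.H586R2.Sac.Inst

set_option autoImplicit false
set_option linter.unusedSectionVars false

namespace Pool.Agent.H586R2.Sac

/-- formulas with three literals in each clause -/
abbrev F3 : Type := List ((Bool × ℕ) × (Bool × ℕ) × (Bool × ℕ))

/-- the `k`-th literal occurrence -/
def lit (φ : F3) (k : ℕ) : Bool × ℕ :=
  if k % 3 = 0 then (φ.getD (k / 3) ((false, 0), (false, 0), (false, 0))).1
  else if k % 3 = 1 then (φ.getD (k / 3) ((false, 0), (false, 0), (false, 0))).2.1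
  else (φ.getD (k / 3) ((false, 0), (false, 0), (false, 0))).2.2

instance (l : ℕ → Bool × ℕ) (k k' : ℕ) : Decidable (Contr l k k') := by
  unfold Contr; infer_instance

/-- satisfiability -/
def IsSat3 (φ : F3) : Prop :=
  ∃ τ : ℕ → Bool, ∀ c ∈ φ, τ c.1.2 = c.1.1 ∨ τ c.2.1.2 = c.2.1.1 ∨ τ c.2.2.2 = c.2.2.1

theorem choice_iff (φ : F3) : (∃ s, Choice φ.length (lit φ) s) ↔ IsSat3 φ := by
  classical
  constructor
  · rintro ⟨s, hs1, hs2⟩
    refine ⟨fun v => decide (∃ j < φ.length, lit φ (s j) = (true, v)), ?_⟩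
    intro c hc
    obtain ⟨j, hj, rfl⟩ := List.getElem_of_mem hc
    have key : (fun v => decide (∃ j < φ.length, lit φ (s j) = (true, v))) (lit φ (s j)).2 =
        (lit φ (s j)).1 := by
      cases hb : (lit φ (s j)).1 with
      | true =>
        simp only [decide_eq_true_eq]
        exact ⟨j, hj, Prod.ext hb rfl⟩
      | false =>
        simp only [decide_eq_false_iff_not]
        rintro ⟨j', hj', h⟩
        refine hs2 j hj j' hj' ⟨by rw [h], by rw [h, hb]; simp⟩
    have hb := hs1 j hj
    have hdiv : s j / 3 = j := by omega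
    have hget : φ.getD (s j / 3) ((false, 0), (false, 0), (false, 0)) = φ[j] := by
      rw [hdiv]; simp [List.getD, hj]
    have hcases : lit φ (s j) = φ[j].1 ∨ lit φ (s j) = φ[j].2.1 ∨ lit φ (s j) = φ[j].2.2 := by
      unfold lit
      rw [hget]
      split_ifs
      · exact Or.inl rfl
      · exact Or.inr (Or.inl rfl)
      · exact Or.inr (Or.inr rfl)
    rcases hcases with h | h | h <;> rw [h] at key
    · exact Or.inl key
    · exact Or.inr (Or.inl key)
    · exact Or.inr (Or.inr key)
  · rintro ⟨τ, hτ⟩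
    have pick : ∀ j, ∃ k, j < φ.length → (3 * j ≤ k ∧ k ≤ 3 * j + 2) ∧
        τ (lit φ k).2 = (lit φ k).1 := by
      intro j
      by_cases hj : j < φ.length
      · have hget : φ.getD j ((false, 0), (false, 0), (false, 0)) = φ[j] := by
          simp [List.getD, hj]
        rcases hτ φ[j] (List.getElem_mem hj) with h | h | h
        · refine ⟨3 * j, fun _ => ⟨by omega, ?_⟩⟩
          have : lit φ (3 * j) = φ[j].1 := by
            unfold lit
            rw [if_pos (by omega), show 3 * j / 3 = j by omega, hget]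
          rw [this]; exact h
        · refine ⟨3 * j + 1, fun _ => ⟨by omega, ?_⟩⟩
          have : lit φ (3 * j + 1) = φ[j].2.1 := by
            unfold lit
            rw [if_neg (by omega), if_pos (by omega), show (3 * j + 1) / 3 = j by omega, hget]
          rw [this]; exact h
        · refine ⟨3 * j + 2, fun _ => ⟨by omega, ?_⟩⟩
          have : lit φ (3 * j + 2) = φ[j].2.2 := by
            unfold lit
            rw [if_neg (by omega), if_neg (by omega), show (3 * j + 2) / 3 = j by omega, hget]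
          rw [this]; exact h
      · exact ⟨0, fun h => absurd h hj⟩
    choose s hs using pick
    refine ⟨s, fun j hj => (hs j hj).1, ?_⟩
    rintro j hj j' hj' ⟨h1, h2⟩
    apply h2
    rw [← (hs j hj).2, ← (hs j' hj').2, h1]

/-- three copies of the formula -/
def tri (φ : F3) : F3 := φ ++ φ ++ φ

theorem length_tri (φ : F3) : (tri φ).length = 3 * φ.length := by
  unfold tri; rw [List.length_append, List.length_append]; omega

/-- the list of all vertices of the digraph -/
def xlist (φ : F3) : List XD :=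
  (List.range ((tri φ).length + 1)).map (fun j => ((0, j, 0) : XD)) ++ [(1, 0, 0)] ++
    (List.range (tri φ).length).map (fun k => ((2, k, 0) : XD)) ++
    (List.range (tri φ).length).flatMap (fun k =>
      (List.range ((tri φ).length + 1)).map (fun t => ((3, k, t) : XD)))

/-- the list of all forbidden pairs -/
def plist (φ : F3) : List (XD × XD) :=
  (List.range (tri φ).length).map (fun k => (((3, k, 0), (2, k, 0)) : XD × XD)) ++
    (List.range (tri φ).length).flatMap (fun k =>
      ((List.range (tri φ).length).filter (fun k' => decide (k < k' ∧ Contr (lit φ) k k'))).map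
        (fun k' => (((3, k, k' + 1), (3, k', k + 1)) : XD × XD)))

theorem mem_xlist {φ : F3} {x : XD} : x ∈ xlist φ ↔ XMem (3 * φ.length) x := by
  obtain ⟨t, a, b⟩ := x
  simp only [xlist, XMem, List.mem_append, List.mem_map, List.mem_range, List.mem_flatMap,
    List.mem_singleton, Prod.mk.injEq, length_tri]
  constructor
  · rintro (((⟨j, hj, h1, h2, h3⟩ | ⟨h1, h2, h3⟩) | ⟨k, hk, h1, h2, h3⟩) |
      ⟨k, hk, t', ht', h1, h2, h3⟩) <;> omega
  · rintro (⟨h1, h2, h3⟩ | ⟨h1, h2, h3⟩ | ⟨h1, h2, h3⟩ | ⟨h1, h2, h3⟩)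
    · exact Or.inl (Or.inl (Or.inl ⟨a, by omega, h1.symm, rfl, h3.symm⟩))
    · exact Or.inl (Or.inl (Or.inr ⟨h1, h2, h3⟩))
    · exact Or.inl (Or.inr ⟨a, by omega, h1.symm, rfl, h3.symm⟩)
    · exact Or.inr ⟨a, by omega, b, by omega, h1.symm, rfl, rfl⟩

theorem mem_plist {φ : F3} {p : XD × XD} : p ∈ plist φ ↔ PMem (3 * φ.length) (lit φ) p := by
  simp only [plist, PMem, List.mem_append, List.mem_map, List.mem_range, List.mem_flatMap,
    List.mem_filter, decide_eq_true_eq, length_tri]
  constructor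
  · rintro (⟨k, hk, rfl⟩ | ⟨k, hk, k', ⟨hk', h1, h2⟩, rfl⟩)
    · exact Or.inl ⟨k, hk, rfl⟩
    · exact Or.inr ⟨k, k', h1, hk', h2, rfl⟩
  · rintro (⟨k, hk, rfl⟩ | ⟨k, k', h1, hk', h2, rfl⟩)
    · exact Or.inl ⟨k, hk, rfl⟩
    · exact Or.inr ⟨k, by omega, k', ⟨hk', h1, h2⟩, rfl⟩

theorem nodup_xlist (φ : F3) : (xlist φ).Nodup := by
  unfold xlist
  rw [List.nodup_append, List.nodup_append, List.nodup_append]
  refine ⟨⟨⟨?_, by simp, ?_⟩, ?_, ?_⟩, ?_, ?_⟩
  · refine List.Nodup.map ?_ List.nodup_range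
    intro a b h
    simpa using h
  · rintro a ha b hb rfl
    simp only [List.mem_map, List.mem_singleton] at ha hb
    obtain ⟨j, _, rfl⟩ := ha
    simp at hb
  · refine List.Nodup.map ?_ List.nodup_range
    intro a b h
    simpa using h
  · rintro a ha b hb rfl
    simp only [List.mem_append, List.mem_map, List.mem_singleton] at ha hb
    obtain ⟨k, _, rfl⟩ := hb
    rcases ha with ⟨j, _, h⟩ | h <;> simp at h
  · rw [List.nodup_flatMap]
    constructor
    · intro k _
      refine List.Nodup.map ?_ List.nodup_range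
      intro a b h
      simpa using h
    · refine List.nodup_range.imp ?_
      intro k k' hne
      simp only [Function.onFun, List.Disjoint]
      intro a ha hb
      simp only [List.mem_map] at ha hb
      obtain ⟨t, _, rfl⟩ := ha
      obtain ⟨t', _, h⟩ := hb
      simp only [Prod.mk.injEq] at h
      exact hne h.2.1.symm
  · rintro a ha b hb rfl
    simp only [List.mem_append, List.mem_map, List.mem_singleton, List.mem_flatMap] at ha hb
    obtain ⟨k, _, t, _, rfl⟩ := hb
    rcases ha with (⟨j, _, h⟩ | h) | ⟨j, _, h⟩ <;> simp at h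

theorem nodup_plist (φ : F3) : (plist φ).Nodup := by
  unfold plist
  rw [List.nodup_append]
  refine ⟨?_, ?_, ?_⟩
  · refine List.Nodup.map ?_ List.nodup_range
    intro a b h
    simp only [Prod.mk.injEq] at h
    exact h.1.2.1
  · rw [List.nodup_flatMap]
    constructor
    · intro k _
      refine List.Nodup.map ?_ (List.nodup_range.filter _)
      intro a b h
      simp only [Prod.mk.injEq] at h
      omega
    · refine List.nodup_range.imp ?_
      intro k k' hne
      simp only [Function.onFun, List.Disjoint]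
      intro a ha hb
      simp only [List.mem_map] at ha hb
      obtain ⟨t, _, rfl⟩ := ha
      obtain ⟨t', _, h⟩ := hb
      simp only [Prod.mk.injEq] at h
      exact hne h.1.2.1.symm
  · rintro a ha b hb rfl
    simp only [List.mem_map, List.mem_flatMap] at ha hb
    obtain ⟨k, _, rfl⟩ := ha
    obtain ⟨k, _, t, _, h⟩ := hb
    simp only [Prod.mk.injEq] at h
    omega

/-- half of the number of inner vertices of the long paths -/
def hh (φ : F3) : ℕ := (xlist φ).length

/-- descriptors of the vertices of the graph -/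
abbrev GD : Type := Bool × (XD × XD) × Bool × ℕ

/-- the list of all vertices of the graph -/
def glist (φ : F3) : List GD :=
  (xlist φ).flatMap (fun x => [((false, (x, x), false, 0) : GD), (false, (x, x), true, 0)]) ++
    (plist φ).flatMap (fun p => (List.range (2 * hh φ + 1)).flatMap
      (fun i => [((true, p, false, i) : GD), (true, p, true, i)]))

theorem mem_glist {φ : F3} {a : GD} : a ∈ glist φ ↔
    (∃ x, XMem (3 * φ.length) x ∧ ∃ s, a = (false, (x, x), s, 0)) ∨
    (∃ p, PMem (3 * φ.length) (lit φ) p ∧ ∃ i < 2 * hh φ + 1, ∃ s, a = (true, p, s, i)) := by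
  simp only [glist, List.mem_append, List.mem_flatMap, mem_xlist, mem_plist, List.mem_cons,
    List.not_mem_nil, or_false, List.mem_range]
  constructor
  · rintro (⟨x, hx, h | h⟩ | ⟨p, hp, i, hi, h | h⟩)
    · exact Or.inl ⟨x, hx, _, h⟩
    · exact Or.inl ⟨x, hx, _, h⟩
    · exact Or.inr ⟨p, hp, i, hi, _, h⟩
    · exact Or.inr ⟨p, hp, i, hi, _, h⟩
  · rintro (⟨x, hx, s, h⟩ | ⟨p, hp, i, hi, s, h⟩)
    · cases s
      · exact Or.inl ⟨x, hx, Or.inl h⟩
      · exact Or.inl ⟨x, hx, Or.inr h⟩
    · cases s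
      · exact Or.inr ⟨p, hp, i, hi, Or.inl h⟩
      · exact Or.inr ⟨p, hp, i, hi, Or.inr h⟩

theorem nodup_glist (φ : F3) : (glist φ).Nodup := by
  unfold glist
  rw [List.nodup_append]
  refine ⟨?_, ?_, ?_⟩
  · rw [List.nodup_flatMap]
    constructor
    · intro x _
      simp
    · refine (nodup_xlist φ).imp ?_
      intro x y hne
      simp only [Function.onFun, List.Disjoint]
      intro a ha hb
      simp only [List.mem_cons, List.not_mem_nil, or_false] at ha hb
      rcases ha with rfl | rfl <;> rcases hb with h | h <;> simp only [Prod.mk.injEq] at h <;>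
        exact hne h.2.1.1
  · rw [List.nodup_flatMap]
    constructor
    · intro p _
      rw [List.nodup_flatMap]
      constructor
      · intro i _
        simp
      · refine List.nodup_range.imp ?_
        intro x y hne
        simp only [Function.onFun, List.Disjoint]
        intro a ha hb
        simp only [List.mem_cons, List.not_mem_nil, or_false] at ha hb
        rcases ha with rfl | rfl <;> rcases hb with h | h <;> simp only [Prod.mk.injEq] at h <;>
          exact hne h.2.2.2
    · refine (nodup_plist φ).imp ?_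
      intro x y hne
      simp only [Function.onFun, List.Disjoint]
      intro a ha hb
      simp only [List.mem_cons, List.not_mem_nil, or_false, List.mem_flatMap] at ha hb
      obtain ⟨i, _, ha⟩ := ha
      obtain ⟨i', _, hb⟩ := hb
      rcases ha with rfl | rfl <;> rcases hb with h | h <;> simp only [Prod.mk.injEq] at h <;>
        exact hne h.2.1
  · rintro a ha b hb rfl
    simp only [List.mem_cons, List.not_mem_nil, or_false, List.mem_flatMap] at ha hb
    obtain ⟨x, _, ha⟩ := ha
    obtain ⟨p, _, i, _, hb⟩ := hb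
    rcases ha with rfl | rfl <;> rcases hb with h | h <;> simp at h

/-- directed version of the adjacency, on descriptors -/
def relG (N h : ℕ) (a b : GD) : Prop :=
  (a.1 = false ∧ b.1 = false ∧ a.2.2.1 = false ∧ b.2.2.1 = true ∧
    (a.2.1.1 = b.2.1.1 ∨ arcD N b.2.1.1 a.2.1.1)) ∨
  (a.1 = false ∧ b.1 = true ∧ a.2.2.1 = b.2.2.1 ∧
    ((a.2.1.1 = b.2.1.1 ∧ b.2.2.2 = 0) ∨ (a.2.1.1 = b.2.1.2 ∧ b.2.2.2 = 2 * h))) ∨
  (a.1 = true ∧ b.1 = true ∧ a.2.1 = b.2.1 ∧ a.2.2.1 = b.2.2.1 ∧ b.2.2.2 = a.2.2.2 + 1)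

instance (N h : ℕ) (a b : GD) : Decidable (relG N h a b) := by unfold relG; infer_instance

/-- the adjacency, on descriptors -/
def adjG (N h : ℕ) (a b : GD) : Prop := relG N h a b ∨ relG N h b a

instance (N h : ℕ) (a b : GD) : Decidable (adjG N h a b) := by unfold adjG; infer_instance

/-- the reduction -/
def red (φ : F3) : Inst :=
  ((glist φ).map (fun a => (glist φ).map (fun b => decide (adjG (tri φ).length (hh φ) a b))),
    2 * hh φ)

theorem length_red (φ : F3) : (red φ).1.length = (glist φ).length := by simp [red]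

theorem entry_red (φ : F3) (u v : ℕ) (hu : u < (glist φ).length) (hv : v < (glist φ).length) :
    (red φ).entry u v = decide (adjG (tri φ).length (hh φ) (glist φ)[u] (glist φ)[v]) := by
  unfold Inst.entry red
  simp [List.getD, hu, hv]

theorem adjG_comm {N h : ℕ} {a b : GD} : adjG N h a b ↔ adjG N h b a := or_comm

theorem adjG_irr {N h : ℕ} {a : GD} : ¬ adjG N h a a := by
  rintro (h1 | h1)
  all_goals
    rcases h1 with ⟨_, _, h2, h3, _⟩ | ⟨h2, h3, _⟩ | ⟨_, _, _, _, h2⟩
    · rw [h2] at h3; exact absurd h3 (by decide)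
    · rw [h2] at h3; exact absurd h3 (by decide)
    · omega

section Iso

variable (φ : F3)

/-- vertices of the digraph -/
abbrev XX : Type := {x : XD // XMem (3 * φ.length) x}
/-- forbidden pairs -/
abbrev PP : Type := {p : XD × XD // PMem (3 * φ.length) (lit φ) p}

noncomputable instance : Fintype (XX φ) :=
  Fintype.ofInjective (fun x => (⟨x.1, mem_xlist.2 x.2⟩ : {x : XD // x ∈ xlist φ}))
    (fun x y h => Subtype.ext (by simpa using h))

noncomputable instance : Fintype (PP φ) :=
  Fintype.ofInjective (fun x => (⟨x.1, mem_plist.2 x.2⟩ : {x : XD × XD // x ∈ plist φ}))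
    (fun x y h => Subtype.ext (by simpa using h))

theorem card_XX : Fintype.card (XX φ) = hh φ := by
  unfold hh
  rw [← List.toFinset_card_of_nodup (nodup_xlist φ), ← Fintype.card_coe]
  exact Fintype.card_congr (Equiv.subtypeEquivRight (fun x => by
    rw [List.mem_toFinset, mem_xlist]))

/-- the digraph of the formula -/
abbrev dg : Dig (XX φ) (PP φ) := dig φ.length (lit φ)

/-- descriptor of a vertex -/
def code : Vt (XX φ) (PP φ) (hh φ) → GD
  | .inl (x, s) => (false, (x.1, x.1), s, 0)
  | .inr (p, s, i) => (true, p.1, s, (i : ℕ))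

theorem code_mem (v : Vt (XX φ) (PP φ) (hh φ)) : code φ v ∈ glist φ := by
  rw [mem_glist]
  rcases v with ⟨x, s⟩ | ⟨p, s, i⟩
  · exact Or.inl ⟨x.1, x.2, s, rfl⟩
  · exact Or.inr ⟨p.1, p.2, i, i.2, s, rfl⟩

theorem code_inj : Function.Injective (code φ) := by
  rintro (⟨x, s⟩ | ⟨p, s, i⟩) (⟨y, s'⟩ | ⟨p', s', i'⟩) h <;>
    simp only [code, Prod.mk.injEq] at h
  · obtain ⟨_, ⟨h1, _⟩, h2, _⟩ := h
    rw [Subtype.ext h1, h2]
  · exact absurd h.1 (by decide)
  · exact absurd h.1 (by decide)
  · obtain ⟨_, h1, h2, h3⟩ := h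
    rw [Subtype.ext h1, h2, Fin.ext h3]

theorem exists_code {a : GD} (h : a ∈ glist φ) : ∃ v, code φ v = a := by
  rw [mem_glist] at h
  rcases h with ⟨x, hx, s, rfl⟩ | ⟨p, hp, i, hi, s, rfl⟩
  · exact ⟨.inl (⟨x, hx⟩, s), rfl⟩
  · exact ⟨.inr (⟨p, hp⟩, s, ⟨i, hi⟩), rfl⟩

theorem relG_code (a b : Vt (XX φ) (PP φ) (hh φ)) :
    relG (3 * φ.length) (hh φ) (code φ a) (code φ b) ↔ (dg φ).rel (hh φ) a b := by
  rcases a with ⟨x, s⟩ | ⟨p, s, i⟩ <;> rcases b with ⟨y, s'⟩ | ⟨p', s', i'⟩
  · simp only [relG, code, Dig.rel]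
    constructor
    · rintro (⟨_, _, h1, h2, h3⟩ | ⟨_, h, _⟩ | ⟨h, _⟩)
      · exact ⟨h1, h2, h3.imp Subtype.ext id⟩
      · exact absurd h (by decide)
      · exact absurd h (by decide)
    · rintro ⟨h1, h2, h3⟩
      exact Or.inl ⟨trivial, trivial, h1, h2, h3.imp (congrArg Subtype.val) id⟩
  · simp only [relG, code, Dig.rel]
    constructor
    · rintro (⟨_, h, _⟩ | ⟨_, _, h1, h2⟩ | ⟨h, _⟩)
      · exact absurd h (by decide)
      · exact ⟨h1, h2.imp (fun h => ⟨Subtype.ext h.1, h.2⟩) (fun h => ⟨Subtype.ext h.1, h.2⟩)⟩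
      · exact absurd h (by decide)
    · rintro ⟨h1, h2⟩
      exact Or.inr (Or.inl ⟨trivial, trivial, h1, h2.imp (fun h => ⟨congrArg Subtype.val h.1, h.2⟩)
        (fun h => ⟨congrArg Subtype.val h.1, h.2⟩)⟩)
  · simp only [relG, code, Dig.rel]
    constructor
    · rintro (⟨h, _⟩ | ⟨h, _⟩ | ⟨_, h, _⟩) <;> exact absurd h (by decide)
    · exact False.elim
  · simp only [relG, code, Dig.rel]
    constructor
    · rintro (⟨h, _⟩ | ⟨h, _⟩ | ⟨_, _, h1, h2, h3⟩)
      · exact absurd h (by decide)
      · exact absurd h (by decide)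
      · exact ⟨Subtype.ext h1, h2, h3⟩
    · rintro ⟨h1, h2, h3⟩
      exact Or.inr (Or.inr ⟨trivial, trivial, congrArg Subtype.val h1, h2, h3⟩)

theorem adjG_code (a b : Vt (XX φ) (PP φ) (hh φ)) :
    adjG (tri φ).length (hh φ) (code φ a) (code φ b) ↔ ((dg φ).graph (hh φ)).Adj a b := by
  unfold Dig.graph adjG
  rw [SimpleGraph.fromRel_adj, length_tri, relG_code, relG_code]
  constructor
  · intro h
    refine ⟨?_, h⟩
    rintro rfl
    rw [or_self] at h
    rcases a with ⟨x, s⟩ | ⟨p, s, i⟩
    · obtain ⟨h1, h2, _⟩ := h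
      rw [h1] at h2
      exact absurd h2 (by decide)
    · obtain ⟨_, _, h1⟩ := h
      omega
  · exact fun h => h.2

theorem exists_equiv : ∃ e : Vt (XX φ) (PP φ) (hh φ) ≃ Fin (red φ).1.length,
    ∀ v, (glist φ)[(e v : ℕ)]? = some (code φ v) := by
  have key : ∀ v, ∃ u : Fin (red φ).1.length, (glist φ)[(u : ℕ)]? = some (code φ v) := by
    intro v
    obtain ⟨i, hi, h⟩ := List.getElem_of_mem (code_mem φ v)
    exact ⟨⟨i, by rw [length_red]; exact hi⟩, by rw [List.getElem?_eq_getElem hi, h]⟩
  choose e he using key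
  have hinj : Function.Injective e := by
    intro v w h
    apply code_inj φ
    have h1 := he v
    rw [h, he w] at h1
    exact (Option.some.inj h1).symm
  have hsurj : Function.Surjective e := by
    intro u
    have hu : (u : ℕ) < (glist φ).length := by rw [← length_red]; exact u.2
    obtain ⟨v, hv⟩ := exists_code φ (List.getElem_mem hu)
    refine ⟨v, ?_⟩
    have h1 := he v
    have hev : (e v : ℕ) < (glist φ).length := by rw [← length_red]; exact (e v).2
    rw [hv, List.getElem?_eq_getElem hev, Option.some.injEq] at h1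
    exact Fin.ext ((List.Nodup.getElem_inj_iff (nodup_glist φ)).1 h1)
  exact ⟨Equiv.ofBijective e ⟨hinj, hsurj⟩, he⟩

theorem exists_iso : Nonempty ((dg φ).graph (hh φ) ≃g (red φ).graph) := by
  obtain ⟨e, he⟩ := exists_equiv φ
  refine ⟨⟨e, ?_⟩⟩
  intro v w
  have hv : (e v : ℕ) < (glist φ).length := by rw [← length_red]; exact (e v).2
  have hw : (e w : ℕ) < (glist φ).length := by rw [← length_red]; exact (e w).2
  have h1 := he v
  have h2 := he w
  rw [List.getElem?_eq_getElem hv, Option.some.injEq] at h1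
  rw [List.getElem?_eq_getElem hw, Option.some.injEq] at h2
  unfold Inst.graph
  rw [SimpleGraph.fromRel_adj, entry_red φ _ _ hv hw, entry_red φ _ _ hw hv, h1, h2,
    decide_eq_true_eq, decide_eq_true_eq, adjG_code, adjG_code]
  constructor
  · rintro ⟨_, h | h⟩
    · exact h
    · exact h.symm
  · intro h
    exact ⟨fun heq => h.ne (e.injective heq), Or.inl h⟩

theorem red_correct : IsSat3 φ ↔ HasShortAltCycle (red φ).graph (red φ).2 := by
  obtain ⟨f⟩ := exists_iso φ
  rw [← choice_iff, ← closed_iff, ← Dig.hasShort_iff (h := hh φ) (L := 2 * hh φ) (dg φ)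
    (by rw [card_XX]) (by omega)]
  exact ⟨fun h => h.map f, fun h => h.map f.symm⟩

theorem hh_pos : 0 < hh φ := by
  unfold hh
  apply List.length_pos_of_mem (a := ((1, 0, 0) : XD))
  rw [mem_xlist]
  exact Or.inr (Or.inl ⟨rfl, rfl, rfl⟩)

theorem red_valid : (red φ).Valid := by
  refine ⟨?_, ?_, ?_, ?_, ?_⟩
  · intro row hrow
    unfold red at hrow
    rw [List.mem_map] at hrow
    obtain ⟨a, _, rfl⟩ := hrow
    rw [length_red, List.length_map]
  · intro u hu v hv
    rw [length_red] at hu hv
    rw [entry_red φ u v hu hv, entry_red φ v u hv hu]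
    simp only [adjG_comm (a := (glist φ)[u])]
  · intro u hu
    rw [length_red] at hu
    rw [entry_red φ u u hu hu, decide_eq_false_iff_not]
    exact adjG_irr
  · have := hh_pos φ
    show 1 ≤ 2 * hh φ
    omega
  · rw [length_red]
    show 2 * hh φ ≤ (glist φ).length
    unfold glist
    rw [List.length_append, List.length_flatMap]
    have : (List.map (fun x : XD => ([((false, (x, x), false, 0) : GD),
        (false, (x, x), true, 0)]).length) (xlist φ)).sum = 2 * hh φ := by
      simp [hh, Nat.mul_comm]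
    rw [this]
    exact Nat.le_add_right _ _

theorem red_bipartite : (red φ).graph.IsBipartite := by
  obtain ⟨f⟩ := exists_iso φ
  have hc : ((dg φ).graph (hh φ)).Coloring Bool := by
    refine SimpleGraph.Coloring.mk (fun v => match v with
      | .inl (_, s) => s
      | .inr (_, s, i) => if (i : ℕ) % 2 = 0 then !s else s) ?_
    rintro (⟨x, s⟩ | ⟨p, s, i⟩) (⟨y, s'⟩ | ⟨p', s', i'⟩) h
    · rw [Dig.adj_ll] at h
      rcases h with ⟨h1, h2, _⟩ | ⟨h1, h2, _⟩ <;> simp [h1, h2]
    · rw [Dig.adj_lr] at h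
      obtain ⟨rfl, h⟩ := h
      have : (i' : ℕ) % 2 = 0 := by omega
      simp [this]
    · rw [Dig.adj_rl] at h
      obtain ⟨rfl, h⟩ := h
      have : (i : ℕ) % 2 = 0 := by omega
      simp [this]
    · rw [Dig.adj_rr] at h
      obtain ⟨_, rfl, h⟩ := h
      rcases Nat.mod_two_eq_zero_or_one i with h1 | h1 <;>
        rcases Nat.mod_two_eq_zero_or_one i' with h2 | h2 <;>
        first
        | (exfalso; omega)
        | simp [h1, h2]
  have h2 : ((dg φ).graph (hh φ)).Colorable 2 := hc.colorable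
  exact SimpleGraph.Colorable.of_hom f.symm.toHom h2

theorem red_perfect : HasPerfectMatching (red φ).graph := by
  classical
  obtain ⟨f⟩ := exists_iso φ
  obtain ⟨μ, h1, h2⟩ := (dg φ).exists_partner_fun (hh φ) ∅
  have h3 : ∀ v, ((dg φ).graph (hh φ)).Adj v (μ v) := fun v => (dg φ).mrel_adj (hh φ) ∅ (h1 v)
  have h4 : ∀ v, (red φ).graph.Adj v (f (μ (f.symm v))) := by
    intro v
    have := f.map_adj_iff.2 (h3 (f.symm v))
    rwa [show f (f.symm v) = v from f.apply_symm_apply v] at this
  have h5 : ∀ v, f (μ (f.symm (f (μ (f.symm v))))) = v := by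
    intro v
    rw [show f.symm (f (μ (f.symm v))) = μ (f.symm v) from f.symm_apply_apply _, h2]
    exact f.apply_symm_apply v
  obtain ⟨hm, _⟩ := partner_matching (fun v => f (μ (f.symm v))) h4 h5
  refine ⟨_, hm, fun v => ⟨s(v, f (μ (f.symm v))), Finset.mem_image_of_mem _ (Finset.mem_univ _),
    by simp⟩⟩

end Iso

end Pool.Agent.H586R2.Sac
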