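import Mathlib
import Pool.Agent.H586R2.Sac.Red
import Pool.Agent.NPC.Num

set_option autoImplicit false
set_option linter.unusedSectionVars false

namespace Pool.Agent.H586R2.Sac

open Pool.Agent.NPC

theorem tri_poly : NPC.Poly tri :=
  NPC.Poly.append (NPC.Poly.append NPC.Poly.id NPC.Poly.id) NPC.Poly.id

theorem R1_poly : NPC.Poly (fun φ : F3 => List.range (tri φ).length) :=
  NPC.Poly.range_length tri_poly

theorem R2_poly : NPC.Poly (fun φ : F3 => List.range ((tri φ).length + 1)) :=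
  (NPC.Poly.range_length (NPC.Poly.cons (NPC.Poly.const ((false, 0), (false, 0), (false, 0)))
    tri_poly)).congr (fun φ => by rw [List.length_cons])

theorem xlist_poly : NPC.Poly xlist := by
  unfold xlist
  refine NPC.Poly.append (NPC.Poly.append (NPC.Poly.append ?_ (NPC.Poly.const _)) ?_) ?_
  · exact NPC.Poly.map (F := fun (_ : F3) (j : ℕ) => ((0, j, 0) : XD)) R2_poly
      (NPC.Poly.pair (NPC.Poly.const 0) (NPC.Poly.pair (NPC.Poly.snd NPC.Poly.id)
        (NPC.Poly.const 0)))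
  · exact NPC.Poly.map (F := fun (_ : F3) (j : ℕ) => ((2, j, 0) : XD)) R1_poly
      (NPC.Poly.pair (NPC.Poly.const 2) (NPC.Poly.pair (NPC.Poly.snd NPC.Poly.id)
        (NPC.Poly.const 0)))
  · refine NPC.Poly.flatMap (F := fun (φ : F3) (k : ℕ) =>
      (List.range ((tri φ).length + 1)).map (fun t => ((3, k, t) : XD))) R1_poly ?_
    refine NPC.Poly.map (F := fun (p : F3 × ℕ) (t : ℕ) => ((3, p.2, t) : XD))
      (R2_poly.comp (NPC.Poly.fst NPC.Poly.id)) ?_
    exact NPC.Poly.pair (NPC.Poly.const 3) (NPC.Poly.pair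
      (NPC.Poly.snd (NPC.Poly.fst NPC.Poly.id)) (NPC.Poly.snd NPC.Poly.id))

theorem lit_poly {α : Type} [TEnc α] {f : α → F3} {k : α → ℕ} (hf : NPC.Poly f)
    (hk : NPC.Poly k) : NPC.Poly (fun a => lit (f a) (k a)) := by
  unfold lit
  have hd : NPC.Poly (fun a => (f a).getD (k a / 3) ((false, 0), (false, 0), (false, 0))) :=
    NPC.Poly.getD hf (NPC.Poly.div hk (NPC.Poly.const 3)) (NPC.Poly.const _)
  have hm : NPC.Poly (fun a => k a % 3) := NPC.Poly.mod hk (NPC.Poly.const 3)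
  exact NPC.Poly.ite (NPC.Poly.decide_eq hm (NPC.Poly.const 0)) (NPC.Poly.fst hd)
    (NPC.Poly.ite (NPC.Poly.decide_eq hm (NPC.Poly.const 1)) (NPC.Poly.fst (NPC.Poly.snd hd))
      (NPC.Poly.snd (NPC.Poly.snd hd)))

theorem contr_poly {α : Type} [TEnc α] {f : α → F3} {k k' : α → ℕ} (hf : NPC.Poly f)
    (hk : NPC.Poly k) (hk' : NPC.Poly k') :
    NPC.Poly (fun a => decide (Contr (lit (f a)) (k a) (k' a))) := by
  refine (NPC.Poly.decide_and (NPC.Poly.decide_eq (NPC.Poly.snd (lit_poly hf hk))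
    (NPC.Poly.snd (lit_poly hf hk'))) (NPC.Poly.decide_not (NPC.Poly.decide_eq
      (NPC.Poly.fst (lit_poly hf hk)) (NPC.Poly.fst (lit_poly hf hk'))))).congr ?_
  intro a
  rw [decide_eq_decide]
  exact Iff.rfl

theorem plist_poly : NPC.Poly plist := by
  unfold plist
  refine NPC.Poly.append ?_ ?_
  · exact NPC.Poly.map (F := fun (_ : F3) (k : ℕ) => (((3, k, 0), (2, k, 0)) : XD × XD)) R1_poly
      (NPC.Poly.pair
        (NPC.Poly.pair (NPC.Poly.const 3) (NPC.Poly.pair (NPC.Poly.snd NPC.Poly.id)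
          (NPC.Poly.const 0)))
        (NPC.Poly.pair (NPC.Poly.const 2) (NPC.Poly.pair (NPC.Poly.snd NPC.Poly.id)
          (NPC.Poly.const 0))))
  · refine NPC.Poly.flatMap (F := fun (φ : F3) (k : ℕ) =>
      ((List.range (tri φ).length).filter (fun k' => decide (k < k' ∧ Contr (lit φ) k k'))).map
        (fun k' => (((3, k, k' + 1), (3, k', k + 1)) : XD × XD))) R1_poly ?_
    refine NPC.Poly.map (F := fun (p : F3 × ℕ) (k' : ℕ) =>
      (((3, p.2, k' + 1), (3, k', p.2 + 1)) : XD × XD)) ?_ ?_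
    · refine NPC.Poly.filter (p := fun (p : F3 × ℕ) (k' : ℕ) =>
        decide (p.2 < k' ∧ Contr (lit p.1) p.2 k')) (R1_poly.comp (NPC.Poly.fst NPC.Poly.id)) ?_
      have h1 : NPC.Poly (fun q : (F3 × ℕ) × ℕ => q.1.1) :=
        NPC.Poly.fst (NPC.Poly.fst NPC.Poly.id)
      have h2 : NPC.Poly (fun q : (F3 × ℕ) × ℕ => q.1.2) :=
        NPC.Poly.snd (NPC.Poly.fst NPC.Poly.id)
      have h3 : NPC.Poly (fun q : (F3 × ℕ) × ℕ => q.2) := NPC.Poly.snd NPC.Poly.id
      exact NPC.Poly.decide_and (NPC.Poly.decide_lt h2 h3) (contr_poly h1 h2 h3)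
    · have h2 : NPC.Poly (fun q : (F3 × ℕ) × ℕ => q.1.2) :=
        NPC.Poly.snd (NPC.Poly.fst NPC.Poly.id)
      have h3 : NPC.Poly (fun q : (F3 × ℕ) × ℕ => q.2) := NPC.Poly.snd NPC.Poly.id
      exact NPC.Poly.pair
        (NPC.Poly.pair (NPC.Poly.const 3) (NPC.Poly.pair h2 (NPC.Poly.succ h3)))
        (NPC.Poly.pair (NPC.Poly.const 3) (NPC.Poly.pair h3 (NPC.Poly.succ h2)))

theorem hh_poly : NPC.Poly hh := NPC.Poly.length xlist_poly

theorem R3_poly : NPC.Poly (fun φ : F3 => List.range (2 * hh φ + 1)) :=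
  (NPC.Poly.range_length (NPC.Poly.cons (NPC.Poly.const ((0, 0, 0) : XD))
    (NPC.Poly.append xlist_poly xlist_poly))).congr (fun φ => by
      rw [List.length_cons, List.length_append]; unfold hh; congr 1; omega)

theorem glist_poly : NPC.Poly glist := by
  unfold glist
  refine NPC.Poly.append ?_ ?_
  · refine NPC.Poly.flatMap (F := fun (_ : F3) (x : XD) =>
      [((false, (x, x), false, 0) : GD), (false, (x, x), true, 0)]) xlist_poly ?_
    have hx : NPC.Poly (fun q : F3 × XD => q.2) := NPC.Poly.snd NPC.Poly.id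
    have hy : ∀ b : Bool, NPC.Poly (fun q : F3 × XD => ((false, (q.2, q.2), b, 0) : GD)) :=
      fun b => NPC.Poly.pair (NPC.Poly.const false) (NPC.Poly.pair (NPC.Poly.pair hx hx)
        (NPC.Poly.pair (NPC.Poly.const b) (NPC.Poly.const 0)))
    exact NPC.Poly.cons (hy false) (NPC.Poly.cons (hy true) (NPC.Poly.const []))
  · refine NPC.Poly.flatMap (F := fun (φ : F3) (p : XD × XD) =>
      (List.range (2 * hh φ + 1)).flatMap
        (fun i => [((true, p, false, i) : GD), (true, p, true, i)])) plist_poly ?_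
    refine NPC.Poly.flatMap (F := fun (q : F3 × (XD × XD)) (i : ℕ) =>
      [((true, q.2, false, i) : GD), (true, q.2, true, i)])
      (R3_poly.comp (NPC.Poly.fst NPC.Poly.id)) ?_
    have hp : NPC.Poly (fun q : (F3 × (XD × XD)) × ℕ => q.1.2) :=
      NPC.Poly.snd (NPC.Poly.fst NPC.Poly.id)
    have hi : NPC.Poly (fun q : (F3 × (XD × XD)) × ℕ => q.2) := NPC.Poly.snd NPC.Poly.id
    have hy : ∀ b : Bool,
        NPC.Poly (fun q : (F3 × (XD × XD)) × ℕ => ((true, q.1.2, b, q.2) : GD)) :=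
      fun b => NPC.Poly.pair (NPC.Poly.const true) (NPC.Poly.pair hp
        (NPC.Poly.pair (NPC.Poly.const b) hi))
    exact NPC.Poly.cons (hy false) (NPC.Poly.cons (hy true) (NPC.Poly.const []))

section Rel

variable {α : Type} [TEnc α]

theorem arc_poly {N : α → ℕ} {x y : α → XD} (hN : NPC.Poly N) (hx : NPC.Poly x)
    (hy : NPC.Poly y) : NPC.Poly (fun a => decide (arcD (N a) (x a) (y a))) := by
  have x1 := NPC.Poly.fst hx
  have x2 := NPC.Poly.fst (NPC.Poly.snd hx)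
  have x3 := NPC.Poly.snd (NPC.Poly.snd hx)
  have y1 := NPC.Poly.fst hy
  have y2 := NPC.Poly.fst (NPC.Poly.snd hy)
  have y3 := NPC.Poly.snd (NPC.Poly.snd hy)
  have c : ∀ n : ℕ, NPC.Poly (fun _ : α => n) := fun n => NPC.Poly.const n
  have m3 : NPC.Poly (fun a => 3 * (x a).2.1) := NPC.Poly.mul (c 3) x2
  have m2 : NPC.Poly (fun a => (x a).2.1 + 1) := NPC.Poly.succ x2
  have r3 : NPC.Poly (fun a => decide ((x a).2.1 % 3 ≠ 2)) :=
    NPC.Poly.decide_not (NPC.Poly.decide_eq (NPC.Poly.mod x2 (c 3)) (c 2))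
  refine (NPC.Poly.decide_or
    (NPC.Poly.decide_and (NPC.Poly.decide_eq x1 (c 0)) (NPC.Poly.decide_and
      (NPC.Poly.decide_eq y1 (c 2)) (NPC.Poly.decide_eq y2 m3)))
    (NPC.Poly.decide_or
    (NPC.Poly.decide_and (NPC.Poly.decide_eq x1 (c 0)) (NPC.Poly.decide_and
      (NPC.Poly.decide_eq y1 (c 3)) (NPC.Poly.decide_and (NPC.Poly.decide_eq y2 m3)
        (NPC.Poly.decide_eq y3 (c 0)))))
    (NPC.Poly.decide_or
    (NPC.Poly.decide_and (NPC.Poly.decide_eq x1 (c 0)) (NPC.Poly.decide_and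
      (NPC.Poly.decide_eq m3 hN) (NPC.Poly.decide_eq y1 (c 1))))
    (NPC.Poly.decide_or
    (NPC.Poly.decide_and (NPC.Poly.decide_eq x1 (c 1)) (NPC.Poly.decide_and
      (NPC.Poly.decide_eq y1 (c 0)) (NPC.Poly.decide_eq y2 (c 0))))
    (NPC.Poly.decide_or
    (NPC.Poly.decide_and (NPC.Poly.decide_eq x1 (c 2)) (NPC.Poly.decide_and r3
      (NPC.Poly.decide_and (NPC.Poly.decide_eq y1 (c 2)) (NPC.Poly.decide_eq y2 m2))))
    (NPC.Poly.decide_or
    (NPC.Poly.decide_and (NPC.Poly.decide_eq x1 (c 2)) (NPC.Poly.decide_and r3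
      (NPC.Poly.decide_and (NPC.Poly.decide_eq y1 (c 3)) (NPC.Poly.decide_and
        (NPC.Poly.decide_eq y2 m2) (NPC.Poly.decide_eq y3 (c 0))))))
    (NPC.Poly.decide_or
    (NPC.Poly.decide_and (NPC.Poly.decide_eq x1 (c 3)) (NPC.Poly.decide_and
      (NPC.Poly.decide_eq y1 (c 3)) (NPC.Poly.decide_and
        (NPC.Poly.decide_eq y2 x2) (NPC.Poly.decide_eq y3 (NPC.Poly.succ x3)))))
    (NPC.Poly.decide_and (NPC.Poly.decide_eq x1 (c 3)) (NPC.Poly.decide_and
      (NPC.Poly.decide_eq x3 hN) (NPC.Poly.decide_and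
        (NPC.Poly.decide_eq y1 (c 0)) (NPC.Poly.decide_eq y2
          (NPC.Poly.succ (NPC.Poly.div x2 (c 3)))))))))))))).congr ?_
  intro a
  rw [decide_eq_decide]
  exact Iff.rfl

theorem rel_poly {N h : α → ℕ} {x y : α → GD} (hN : NPC.Poly N) (hh : NPC.Poly h)
    (hx : NPC.Poly x) (hy : NPC.Poly y) :
    NPC.Poly (fun a => decide (relG (N a) (h a) (x a) (y a))) := by
  have x1 := NPC.Poly.fst hx
  have xp := NPC.Poly.fst (NPC.Poly.snd hx)
  have xs := NPC.Poly.fst (NPC.Poly.snd (NPC.Poly.snd hx))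
  have xi := NPC.Poly.snd (NPC.Poly.snd (NPC.Poly.snd hx))
  have y1 := NPC.Poly.fst hy
  have yp := NPC.Poly.fst (NPC.Poly.snd hy)
  have ys := NPC.Poly.fst (NPC.Poly.snd (NPC.Poly.snd hy))
  have yi := NPC.Poly.snd (NPC.Poly.snd (NPC.Poly.snd hy))
  have c : ∀ n : ℕ, NPC.Poly (fun _ : α => n) := fun n => NPC.Poly.const n
  have b : ∀ n : Bool, NPC.Poly (fun _ : α => n) := fun n => NPC.Poly.const n
  refine (NPC.Poly.decide_or
    (NPC.Poly.decide_and (NPC.Poly.decide_eq x1 (b false)) (NPC.Poly.decide_and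
      (NPC.Poly.decide_eq y1 (b false)) (NPC.Poly.decide_and (NPC.Poly.decide_eq xs (b false))
        (NPC.Poly.decide_and (NPC.Poly.decide_eq ys (b true)) (NPC.Poly.decide_or
          (NPC.Poly.decide_eq (NPC.Poly.fst xp) (NPC.Poly.fst yp))
          (arc_poly hN (NPC.Poly.fst yp) (NPC.Poly.fst xp)))))))
    (NPC.Poly.decide_or
    (NPC.Poly.decide_and (NPC.Poly.decide_eq x1 (b false)) (NPC.Poly.decide_and
      (NPC.Poly.decide_eq y1 (b true)) (NPC.Poly.decide_and (NPC.Poly.decide_eq xs ys)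
        (NPC.Poly.decide_or
          (NPC.Poly.decide_and (NPC.Poly.decide_eq (NPC.Poly.fst xp) (NPC.Poly.fst yp))
            (NPC.Poly.decide_eq yi (c 0)))
          (NPC.Poly.decide_and (NPC.Poly.decide_eq (NPC.Poly.fst xp) (NPC.Poly.snd yp))
            (NPC.Poly.decide_eq yi (NPC.Poly.mul (c 2) hh)))))))
    (NPC.Poly.decide_and (NPC.Poly.decide_eq x1 (b true)) (NPC.Poly.decide_and
      (NPC.Poly.decide_eq y1 (b true)) (NPC.Poly.decide_and (NPC.Poly.decide_eq xp yp)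
        (NPC.Poly.decide_and (NPC.Poly.decide_eq xs ys)
          (NPC.Poly.decide_eq yi (NPC.Poly.succ xi)))))))).congr ?_
  intro a
  rw [decide_eq_decide]
  exact Iff.rfl

theorem adj_poly {N h : α → ℕ} {x y : α → GD} (hN : NPC.Poly N) (hh : NPC.Poly h)
    (hx : NPC.Poly x) (hy : NPC.Poly y) :
    NPC.Poly (fun a => decide (adjG (N a) (h a) (x a) (y a))) := by
  refine (NPC.Poly.decide_or (rel_poly hN hh hx hy) (rel_poly hN hh hy hx)).congr ?_
  intro a
  rw [decide_eq_decide]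
  exact Iff.rfl

end Rel

theorem red_poly : NPC.Poly red := by
  unfold red
  refine NPC.Poly.pair ?_ (NPC.Poly.mul (NPC.Poly.const 2) hh_poly)
  refine NPC.Poly.map (F := fun (φ : F3) (a : GD) =>
    (glist φ).map (fun b => decide (adjG (tri φ).length (hh φ) a b))) glist_poly ?_
  refine NPC.Poly.map (F := fun (p : F3 × GD) (b : GD) =>
    decide (adjG (tri p.1).length (hh p.1) p.2 b))
    (glist_poly.comp (NPC.Poly.fst NPC.Poly.id)) ?_
  have h1 : NPC.Poly (fun q : (F3 × GD) × GD => q.1.1) := NPC.Poly.fst (NPC.Poly.fst NPC.Poly.id)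
  exact adj_poly (NPC.Poly.length (tri_poly.comp h1)) (hh_poly.comp h1)
    (NPC.Poly.snd (NPC.Poly.fst NPC.Poly.id)) (NPC.Poly.snd NPC.Poly.id)

end Pool.Agent.H586R2.Sac
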